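import Pool.Agent.Lib.HWF.Piece

set_option autoImplicit false

namespace Pool.Agent.Lib.HWF

open Finset Pool.Agent.Lib.MP_8a1ce7_co.D

/-- a face is named by the set of arcs above it -/
abbrev Fa := Finset (Bool × ℕ)
/-- an edge: a unit step of the line or an arc named by its left end -/
abbrev Ed := Option Bool × ℕ

def lab (M : Bool → ℕ → ℕ) (b : Bool) (g : ℕ) : Fa :=
  ((range g).filter fun p => g ≤ M b p).image fun p => (b, p)

def ex : Ed → ℕ
  | (none, g) => g - 1
  | (some _, p) => p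

def ey (M : Bool → ℕ → ℕ) : Ed → ℕ
  | (none, g) => g
  | (some b, p) => M b p

def f1 (M : Bool → ℕ → ℕ) : Ed → Fa
  | (none, g) => lab M true g
  | (some b, p) => lab M b p

def f2 (M : Bool → ℕ → ℕ) : Ed → Fa
  | (none, g) => lab M false g
  | (some b, p) => lab M b (p + 1)

def io : Ed → Fa → ZMod 2
  | (none, _), _ => 0
  | (some b, p), f => ι ((b, p) ∈ f)

def rho : Ed → ℕ → ZMod 2
  | (none, g), x => ι (g ≤ x)
  | (some _, _), _ => 0

def Val (N : ℕ) (M : Bool → ℕ → ℕ) : Ed → Prop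
  | (none, g) => 0 < g ∧ g < N
  | (some b, p) => p < M b p

variable {N : ℕ} {M : Bool → ℕ → ℕ} {b c : Bool} {g p v : ℕ} {e e0 : Ed} {f f' : Fa}

lemma mem_lab : (c, p) ∈ lab M b g ↔ c = b ∧ p < g ∧ g ≤ M b p := by
  simp only [lab, mem_image, mem_filter, mem_range, Prod.mk.injEq]
  constructor
  · rintro ⟨a, h, rfl, rfl⟩; exact ⟨rfl, h⟩
  · rintro ⟨rfl, h⟩; exact ⟨p, h, rfl, rfl⟩

lemma ι_t {P : Prop} [Decidable P] (h : P) : ι P = 1 := if_pos h

lemma ι4 {P Q R S : Prop} [Decidable P] [Decidable Q] [Decidable R] [Decidable S] :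
    ι P + ι Q + ι R + ι S = 0 ↔ ((P ↔ Q) ↔ (R ↔ S)) := by
  unfold ι
  by_cases P <;> by_cases Q <;> by_cases R <;> by_cases S <;> simp [*] <;> decide

lemma keyK (hs : Sys (range N) M) (h : Val N M e) (h0 : Val N M e0) :
    rho e0 (ex e) + rho e0 (ey M e) + io e (f1 M e0) + io e (f2 M e0) = ι (e = e0) := by
  obtain ⟨_ | b, p⟩ := e <;> obtain ⟨_ | c, q⟩ := e0 <;>
    simp only [rho, ex, ey, io, f1, f2, Val, mem_lab, add_zero, zero_add, Prod.mk.injEq, true_and,
      Option.some.injEq] at h h0 ⊢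
  · rw [ι3]; omega
  · rw [ι_false]; simp
  · rw [ι_false (P := some b = none ∧ p = q) (by simp)]
    rw [ι4]
    cases b <;> simp <;> omega
  · rw [ι3]
    have := (hs c).inv p
    grind

lemma lab_zero : lab M b 0 = ∅ := by simp [lab]

lemma lab_N (hs : Sys (range N) M) : lab M b N = ∅ := by
  rw [eq_empty_iff_forall_notMem]
  rintro ⟨c, p⟩ h
  obtain ⟨-, h1, h2⟩ := mem_lab.1 h
  have := mem_range.1 ((hs b).mem (mem_range.2 h1))
  omega

lemma lab_fix (hs : Sys (range N) M) (h : M b v = v) : lab M b (v + 1) = lab M b v := by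
  ext ⟨c, q⟩
  have := (hs b).inv q
  simp only [mem_lab]
  grind

lemma lab_in (hs : Sys (range N) M) (h : p < M b p) : lab M b (M b p) = lab M b (p + 1) := by
  ext ⟨c, q⟩
  have := (hs b).inv q
  have := (hs b).inv p
  have := (hs b).nc p q
  simp only [mem_lab]
  unfold NC at this
  grind (splits := 30)

lemma lab_out (hs : Sys (range N) M) (h : p < M b p) : lab M b (M b p + 1) = lab M b p := by
  ext ⟨c, q⟩
  have := (hs b).inv q
  have := (hs b).inv p
  have := (hs b).nc p q
  simp only [mem_lab]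
  unfold NC at this
  grind (splits := 30)

def Ad (N : ℕ) (M : Bool → ℕ → ℕ) (f f' : Fa) : Prop :=
  ∃ e, Val N M e ∧ (f1 M e = f ∧ f2 M e = f' ∨ f2 M e = f ∧ f1 M e = f')

lemma Ad.symm (h : Ad N M f f') : Ad N M f' f := by
  obtain ⟨e, h1, h2⟩ := h
  exact ⟨e, h1, by tauto⟩

inductive Rch (N : ℕ) (M : Bool → ℕ → ℕ) : ℕ → Fa → Prop
  | zero : Rch N M 0 ∅
  | step {k : ℕ} {f f' : Fa} : Rch N M k f → Ad N M f f' → Rch N M (k + 1) f'

/-- distance from the outer face -/
noncomputable def dd (N : ℕ) (M : Bool → ℕ → ℕ) (f : Fa) : ℕ := sInf {k | Rch N M k f}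

lemma dd_le {k : ℕ} (h : Rch N M k f) : dd N M f ≤ k := Nat.sInf_le h

lemma dd_spec (h : ∃ k, Rch N M k f) : Rch N M (dd N M f) f :=
  Nat.sInf_mem (s := {k | Rch N M k f}) h

lemma dd_ad (h : ∃ k, Rch N M k f) (ha : Ad N M f f') : dd N M f' ≤ dd N M f + 1 :=
  dd_le ((dd_spec h).step ha)

lemma near (hs : Sys (range N) M) (b : Bool) (v : ℕ) :
    lab M b (v + 1) = lab M b v ∨ Ad N M (lab M b v) (lab M b (v + 1)) := by
  rcases lt_trichotomy v (M b v) with h | h | h
  · exact Or.inr ⟨(some b, v), h, Or.inl ⟨rfl, rfl⟩⟩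
  · exact Or.inl (lab_fix hs h.symm)
  · have i := (hs b).inv v
    have h' : M b v < M b (M b v) := by rw [i]; exact h
    have a := lab_in hs h'
    have c := lab_out hs h'
    rw [i] at a c
    exact Or.inr ⟨(some b, M b v), h', Or.inr ⟨a.symm, c.symm⟩⟩

lemma reach (hs : Sys (range N) M) (b : Bool) (g : ℕ) : ∃ k, Rch N M k (lab M b g) := by
  induction g with
  | zero => exact ⟨0, lab_zero ▸ Rch.zero⟩
  | succ g ih =>
    rcases near hs b g with h | h
    · rwa [h]
    · obtain ⟨k, hk⟩ := ih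
      exact ⟨_, hk.step h⟩

lemma d_step (hs : Sys (range N) M) (b : Bool) (v : ℕ) :
    dd N M (lab M b (v + 1)) ≤ dd N M (lab M b v) + 1 ∧
      dd N M (lab M b v) ≤ dd N M (lab M b (v + 1)) + 1 := by
  rcases near hs b v with h | h
  · rw [h]; omega
  · exact ⟨dd_ad (reach hs _ _) h, dd_ad (reach hs _ _) h.symm⟩

lemma d_riv (hs : Sys (range N) M) (hg : g ≤ N) :
    dd N M (lab M false g) ≤ dd N M (lab M true g) + 1 ∧
      dd N M (lab M true g) ≤ dd N M (lab M false g) + 1 := by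
  by_cases h : 0 < g ∧ g < N
  · have a : Ad N M (lab M true g) (lab M false g) := ⟨(none, g), h, Or.inl ⟨rfl, rfl⟩⟩
    exact ⟨dd_ad (reach hs _ _) a, dd_ad (reach hs _ _) a.symm⟩
  · rcases (by omega : g = 0 ∨ g = N) with rfl | rfl
    · rw [lab_zero, lab_zero]; omega
    · rw [lab_N hs, lab_N hs]; omega

/-- level of an edge -/
noncomputable def lev (N : ℕ) (M : Bool → ℕ → ℕ) (e : Ed) : ℕ :=
  min (dd N M (f1 M e)) (dd N M (f2 M e))

/-- level of a point -/
noncomputable def lv (N : ℕ) (M : Bool → ℕ → ℕ) (v : ℕ) : ℕ :=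
  min (min (dd N M (lab M true v)) (dd N M (lab M false v)))
    (min (dd N M (lab M true (v + 1))) (dd N M (lab M false (v + 1))))

lemma val_lt (hs : Sys (range N) M) (h : Val N M e) : ex e < N ∧ ey M e < N ∧ e.2 < N := by
  obtain ⟨_ | b, p⟩ := e <;> simp only [Val, ex, ey] at h ⊢
  · omega
  · have : p ∈ range N := by
      by_contra hn
      have := (hs b).out p hn
      omega
    have h2 := mem_range.1 ((hs b).mem this)
    have := mem_range.1 this
    omega

lemma lev_lv (hs : Sys (range N) M) (h : Val N M e) :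
    (lv N M (ex e) ≤ lev N M e ∧ lev N M e ≤ lv N M (ex e) + 2) ∧
      lv N M (ey M e) ≤ lev N M e ∧ lev N M e ≤ lv N M (ey M e) + 2 := by
  have co : ∀ v, v < N → ∀ b, (lv N M v ≤ dd N M (lab M b v) ∧ dd N M (lab M b v) ≤ lv N M v + 2) ∧
      lv N M v ≤ dd N M (lab M b (v + 1)) ∧ dd N M (lab M b (v + 1)) ≤ lv N M v + 2 := by
    intro v hv b
    have := d_step hs true v
    have := d_step hs false v
    have := d_riv hs hv.le
    have := d_riv hs (g := v + 1) hv
    unfold lv
    cases b <;> omega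
  obtain ⟨h1, h2, -⟩ := val_lt hs h
  obtain ⟨_ | b, p⟩ := e <;> simp only [Val, ex, ey, lev, f1, f2] at h h1 h2 ⊢
  · have a := co _ h1 true
    have a' := co _ h1 false
    rw [Nat.sub_add_cancel h.1] at a a'
    have := co _ h2 true
    have := co _ h2 false
    omega
  · have a := co _ h2 b
    rw [lab_in hs h, lab_out hs h] at a
    have := co _ h1 b
    omega

/-- the colouring of the points attached to a geodesic from the outer face -/
lemma chi (hs : Sys (range N) M) : ∀ k f, Rch N M k f → dd N M f = k →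
    ∃ (χ : ℕ → ZMod 2) (z : ℕ → Ed), ∀ e, Val N M e → χ (ex e) + χ (ey M e) + io e f ≠ 0 →
      lev N M e < k ∧ e = z (lev N M e) := by
  intro k f h
  induction h with
  | zero =>
    refine fun _ => ⟨0, fun _ => (none, 0), fun e _ h => absurd ?_ h⟩
    obtain ⟨_ | b, p⟩ := e <;> simp [io, ι_false]
  | @step k f f' h ha ih =>
    intro hd
    have d1 := dd_le h
    have d2 := dd_ad ⟨k, h⟩ ha
    obtain ⟨χ, z, H⟩ := ih (by omega)
    obtain ⟨e0, v0, h0⟩ := ha
    have l0 : lev N M e0 = k := by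
      unfold lev
      rcases h0 with ⟨a, b⟩ | ⟨a, b⟩ <;> rw [a, b] <;> omega
    refine ⟨χ + rho e0, Function.update z k e0, fun e v hne => ?_⟩
    by_cases he : e = e0
    · rw [he, l0]; simp
    · have K := keyK hs v v0
      rw [ι_false he] at K
      have := H e v fun h => hne (by
        simp only [Pi.add_apply]
        rcases h0 with ⟨a, b⟩ | ⟨a, b⟩ <;> rw [a, b] at K <;>
          linear_combination h + K - two (io e f))
      refine ⟨by omega, ?_⟩
      rw [Function.update_of_ne this.1.ne]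
      exact this.2

end Pool.Agent.Lib.HWF
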