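import Pool.Agent.Lib.HWF.Rec

set_option autoImplicit false

namespace Pool.Agent.Lib.HWF

open Finset Real Pool.Agent.Lib.MP_8a1ce7_co.D

lemma p_le4 : ∀ (n : ℕ) (S : Fo), Fo.p n S ≤ 4 ^ n := by
  intro n
  induction n with
  | zero => intro S; simp only [Fo.p]; split_ifs <;> simp
  | succ n ih =>
    intro S
    have h : (Fo.succs S).length ≤ 4 := by
      cases S with
      | nil => simp [Fo.succs]
      | cons a r => simp only [Fo.succs]; split_ifs <;> simp
    rw [Fo.p]
    refine (List.sum_le_card_nsmul _ (4 ^ n) fun x hx => ?_).trans ?_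
    · obtain ⟨T, -, rfl⟩ := List.mem_map.1 hx
      exact ih T
    · rw [List.length_map, smul_eq_mul, pow_succ, mul_comm]
      exact Nat.mul_le_mul_left _ h

/-- logarithm of the supermultiplicative sequence -/
noncomputable def LP (n : ℕ) : ℝ := log (Fo.p n Fo.dot)

noncomputable def LF (n : ℕ) : ℝ := log (FF n)

lemma P_pos (n : ℕ) : (0 : ℝ) < Fo.p n Fo.dot := by exact_mod_cast Fo.p_dot_pos n

lemma F_pos (n : ℕ) : (0 : ℝ) < FF n := (P_pos n).trans_le (by exact_mod_cast p_le_FF n)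

lemma LP_nonneg (n : ℕ) : 0 ≤ LP n := log_nonneg (by exact_mod_cast Fo.p_dot_pos n)

lemma LP_add (a b : ℕ) : LP a + LP b ≤ LP (a + b) := by
  rw [LP, LP, ← log_mul (P_pos a).ne' (P_pos b).ne']
  exact log_le_log (mul_pos (P_pos a) (P_pos b)) (by exact_mod_cast Fo.p_mul a b Fo.dot)

lemma LP_mul (t n : ℕ) : t * LP n ≤ LP (t * n) := by
  induction t with
  | zero => simpa using LP_nonneg 0
  | succ t ih =>
    have := LP_add (t * n) n
    rw [Nat.succ_mul]; push_cast; linarith

lemma LP_le (n : ℕ) : LP n ≤ 2 * n := by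
  have h : LP n ≤ log ((4 : ℝ) ^ n) := log_le_log (P_pos n) (by exact_mod_cast p_le4 n _)
  have h4 : log 4 ≤ 2 := by
    rw [show (4 : ℝ) = 2 ^ 2 by norm_num, log_pow]
    have := log_two_lt_d9
    push_cast; linarith
  rw [log_pow] at h
  nlinarith [Nat.cast_nonneg (α := ℝ) n]

lemma LP_le_LF (n : ℕ) : LP n ≤ LF n := log_le_log (P_pos n) (by exact_mod_cast p_le_FF n)

lemma LF_le (n : ℕ) : LF (n + 1) ≤ log (n + 2) + LP n := by
  rw [LP, ← log_mul (by positivity) (P_pos n).ne']
  exact log_le_log (F_pos _) (by exact_mod_cast FF_le_p (n := n))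

/-- the logarithm of the growth rate -/
noncomputable def rr : ℝ := ⨆ n : ℕ, LP (n + 1) / (n + 1)

lemma rr_bdd (n : ℕ) : LP (n + 1) / (n + 1) ≤ 2 := by
  rw [div_le_iff₀ (by positivity)]
  exact_mod_cast LP_le (n + 1)

lemma rr_le : rr ≤ 2 := ciSup_le rr_bdd

lemma LP_le_rr (n : ℕ) : LP n ≤ rr * n := by
  cases n with
  | zero => simp [LP, Fo.p]
  | succ n =>
    have : LP (n + 1) / (n + 1) ≤ rr := le_ciSup (f := fun n : ℕ => LP (n + 1) / (n + 1))
      ⟨2, by rintro _ ⟨m, rfl⟩; exact rr_bdd m⟩ n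
    rw [div_le_iff₀ (by positivity)] at this
    exact_mod_cast this

lemma rr_nonneg : 0 ≤ rr := by
  have := (LP_nonneg 1).trans (LP_le_rr 1)
  simpa using this

lemma rr_least {ℓ : ℝ} {m : ℕ} (h : ∀ n, m ≤ n → LP n ≤ ℓ * (n + 1)) : rr ≤ ℓ := by
  refine ciSup_le fun n => ?_
  rw [div_le_iff₀ (by positivity)]
  by_contra hc
  have hd : 0 < LP (n + 1) - ℓ * (n + 1) := by linarith [not_le.1 hc]
  obtain ⟨t, ht⟩ := exists_nat_gt (ℓ / (LP (n + 1) - ℓ * (n + 1)))
  rw [div_lt_iff₀ hd] at ht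
  have h1 := LP_mul (t + m) (n + 1)
  have h2 := h ((t + m) * (n + 1)) (by nlinarith)
  push_cast at h1 h2
  nlinarith [mul_nonneg (Nat.cast_nonneg (α := ℝ) m) hd.le]

/-- the error term -/
noncomputable def ps (x : ℝ) : ℝ := √x * (log x + 20)

lemma ps_nonneg {x : ℝ} (h : 1 ≤ x) : 0 ≤ ps x :=
  mul_nonneg (sqrt_nonneg x) (by linarith [log_nonneg h])

lemma ps_two {x y z : ℝ} (hz : 1 ≤ z) (hx : z ≤ 9 * x) (hy : z ≤ 9 * y) (h : z ≤ x + y) :
    6 / 5 * √z * (log z + 17) ≤ ps x + ps y := by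
  have l : ∀ u, z ≤ 9 * u → log z + 17 ≤ log u + 20 := fun u hu => by
    have h1 := log_le_log (by linarith) hu
    rw [log_mul (by norm_num) (by linarith)] at h1
    have h9 : log 9 ≤ 3 := by
      have : log 9 ≤ log (2 ^ 4) := log_le_log (by norm_num) (by norm_num)
      rw [log_pow] at this
      have := log_two_lt_d9
      push_cast at *; linarith
    linarith
  have l0 := log_nonneg hz
  have sx := sqrt_nonneg x
  have sy := sqrt_nonneg y
  have sz := sqrt_nonneg z
  have qx := mul_self_sqrt (x := x) (by linarith)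
  have qy := mul_self_sqrt (x := y) (by linarith)
  have qz := mul_self_sqrt (x := z) (by linarith)
  have s : 6 / 5 * √z ≤ √x + √y := by
    have p : 11 / 50 * z ≤ √x * √y := by
      rw [← sqrt_mul (by linarith)]
      refine le_sqrt_of_sq_le ?_
      rcases le_total x y with c | c <;> nlinarith
    refine abs_le_of_sq_le_sq' ?_ (by linarith) |>.2
    nlinarith
  have a := mul_le_mul_of_nonneg_left (l x hx) sx
  have b := mul_le_mul_of_nonneg_left (l y hy) sy
  have c := mul_le_mul_of_nonneg_right s (by linarith : 0 ≤ log z + 17)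
  unfold ps
  linarith

lemma stepA {m : ℕ} (hm : 40000 ≤ m) {ℓ : ℝ} (hl : ℓ ≤ 2)
    (h : ∀ j : ℕ, m ≤ 9 * (j + 1) → j + 1 ≤ m → LF j ≤ ℓ * (j + 1) - 10000 * ps (j + 1)) :
    ∀ n : ℕ, m ≤ 9 * (n + 1) → LF n ≤ ℓ * (n + 1) - 10000 * ps (n + 1) := by
  intro n
  induction n using Nat.strong_induction_on with
  | _ n ih =>
    intro hn
    by_cases c : n + 1 ≤ m
    · exact h n hn c
    have s1 := Nat.sqrt_le (n + 1)
    have s2 := Nat.lt_succ_sqrt (n + 1)
    have s3 : 200 ≤ Nat.sqrt (n + 1) := Nat.le_sqrt.2 (by omega)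
    have s4 : ((Nat.sqrt (n + 1) : ℕ) : ℝ) ≤ √(n + 1) := le_sqrt_of_sq_le (by
      rw [sq]; exact_mod_cast s1)
    generalize Nat.sqrt (n + 1) = s at s1 s2 s3 s4
    have s5 : 200 * s ≤ n + 1 := le_trans (Nat.mul_le_mul_right s s3) s1
    have s6 : (200 : ℝ) ≤ s := by exact_mod_cast s3
    set B : ℝ := ℓ * (n + 1) + 2 * (32 * (s + 1) + 10) - 10000 * (6 / 5 * √(n + 1) * (log (n + 1) + 17))
      with hB
    have key := recur (n := n) (w := s + 1) (Q := ⌊exp B⌋₊) (by omega) s2.le (by omega) (by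
      intro a b a1 b1 c1 c2 a2 b2
      have ia := ih a (by omega) (by omega)
      have ib := ih b (by omega) (by omega)
      refine Nat.le_floor ?_
      push_cast
      rw [← exp_log (F_pos a), ← exp_log (F_pos b), ← exp_add, exp_le_exp]
      have t := ps_two (x := a + 1) (y := b + 1) (z := n + 1) (by linarith [Nat.cast_nonneg (α := ℝ) n])
        (by exact_mod_cast a1) (by exact_mod_cast b1) (by exact_mod_cast c1)
      have d1 : (n + 1 : ℝ) ≤ a + 1 + (b + 1) := by exact_mod_cast c1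
      have d2 : (a + 1 + (b + 1) : ℝ) ≤ n + 1 + (32 * (s + 1) + 10) := by exact_mod_cast c2
      have d3 := mul_le_mul_of_nonneg_left hl (sub_nonneg.2 d1)
      unfold LF at ia ib
      nlinarith)
    have k2 : (FF n : ℝ) ≤ (n + 2) ^ (1610 * (s + 1)) * exp B := by
      refine le_trans ?_ (mul_le_mul_of_nonneg_left (Nat.floor_le (exp_pos B).le) (by positivity))
      exact_mod_cast key
    have k3 := log_le_log (F_pos n) k2
    rw [log_mul (by positivity) (exp_pos B).ne', log_pow, log_exp] at k3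
    have l0 : 0 ≤ log (n + 1 : ℝ) := log_nonneg (by linarith [Nat.cast_nonneg (α := ℝ) n])
    have l1 : log (n + 2 : ℝ) ≤ log (n + 1) + 1 := by
      have : log (n + 2 : ℝ) ≤ log ((n + 1) * 2) :=
        log_le_log (by positivity) (by linarith [Nat.cast_nonneg (α := ℝ) n])
      rw [log_mul (by positivity) (by norm_num)] at this
      linarith [log_two_lt_d9]
    have w1 : (s + 1 : ℝ) ≤ 6 / 5 * √(n + 1) := by linarith
    have k4 : (s + 1 : ℝ) * log (n + 2) ≤ 6 / 5 * √(n + 1) * (log (n + 1) + 1) :=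
      mul_le_mul w1 l1 (log_nonneg (by linarith [Nat.cast_nonneg (α := ℝ) n])) (by positivity)
    have k5 := mul_nonneg (sqrt_nonneg (n + 1 : ℝ)) l0
    push_cast at k3
    unfold LF ps
    nlinarith

lemma stepB {m : ℕ} (hm : 40000 ≤ m) :
    ∃ j : ℕ, m ≤ 9 * (j + 1) ∧ j + 1 ≤ m ∧ rr * (j + 1) - 10000 * ps (j + 1) ≤ LF j := by
  obtain ⟨j, hj, mx⟩ := exists_max_image ((range m).filter fun j => m ≤ 9 * (j + 1))
    (fun j : ℕ => (LF j + 10000 * ps (j + 1)) / (j + 1))
    ⟨m - 1, mem_filter.2 ⟨mem_range.2 (by omega), by omega⟩⟩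
  obtain ⟨j1, j2⟩ := mem_filter.1 hj
  refine ⟨j, j2, mem_range.1 j1, ?_⟩
  have : rr ≤ (LF j + 10000 * ps (j + 1)) / (j + 1) := by
    by_contra hc
    refine hc (rr_least (m := m) fun n hn => ?_)
    have := stepA hm ((not_le.1 hc).le.trans rr_le) (fun i i1 i2 => by
      have := mx i (mem_filter.2 ⟨mem_range.2 i2, i1⟩)
      rw [div_le_iff₀ (by positivity)] at this
      linarith) n (by omega)
    have p := ps_nonneg (x := n + 1) (by linarith [Nat.cast_nonneg (α := ℝ) n])
    linarith [LP_le_LF n]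
  rw [le_div_iff₀ (by positivity)] at this
  linarith

lemma small {n : ℕ} (h : n < 40000) : rr * n ≤ 400 * √n := by
  have q := mul_self_sqrt (Nat.cast_nonneg (α := ℝ) n)
  have s : √(n : ℝ) ≤ 200 := sqrt_le_iff.2 ⟨by norm_num, by
    have : (n : ℝ) ≤ 40000 := by exact_mod_cast h.le
    linarith⟩
  have := mul_le_mul_of_nonneg_right rr_le (Nat.cast_nonneg (α := ℝ) n)
  nlinarith [sqrt_nonneg (n : ℝ)]

lemma stepC (n : ℕ) : rr * n - 210000 * ps n ≤ LP n := by
  induction n using Nat.strong_induction_on with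
  | _ n ih =>
    have s0 := sqrt_nonneg (n : ℝ)
    have l0 := log_natCast_nonneg n
    by_cases c : n < 40000
    · have := small c
      have := LP_nonneg n
      have := mul_nonneg s0 l0
      unfold ps
      nlinarith
    obtain ⟨j, j1, j2, j3⟩ := stepB (not_lt.1 c)
    obtain ⟨i, rfl⟩ : ∃ i, j = i + 1 := ⟨j - 1, by omega⟩
    obtain ⟨k, rfl⟩ : ∃ k, n = i + k := ⟨n - i, by omega⟩
    have a1 := LF_le i
    have a2 := LP_add i k
    have a3 := ih k (by omega)
    have k0 : (1 : ℝ) ≤ k := by exact_mod_cast (by omega : 1 ≤ k)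
    have i0 := Nat.cast_nonneg (α := ℝ) i
    have b1 : (i + 1 + 1 : ℝ) ≤ i + k := by exact_mod_cast j2
    have b2 : 10 * (k : ℝ) ≤ 9 * (i + k) := by exact_mod_cast (by omega : 10 * k ≤ 9 * (i + k))
    push_cast at j3 s0 l0 ⊢
    have m1 : log (i + 1 + 1 : ℝ) ≤ log (i + k) := log_le_log (by positivity) b1
    have m2 : log (k : ℝ) ≤ log (i + k) := log_le_log (by positivity) (by linarith)
    have m3 : √(i + 1 + 1 : ℝ) ≤ √(i + k) := sqrt_le_sqrt b1
    have m4 : √(k : ℝ) ≤ 19 / 20 * √(i + k) := by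
      refine sqrt_le_iff.2 ⟨by positivity, ?_⟩
      rw [mul_pow, sq_sqrt (by positivity)]
      linarith
    have m5 : 1 ≤ √(i + k : ℝ) := one_le_sqrt.2 (by linarith)
    have n1 : ps (i + 1 + 1) ≤ ps (i + k) :=
      mul_le_mul m3 (by linarith) (by linarith [log_nonneg (by linarith : (1 : ℝ) ≤ i + 1 + 1)]) s0
    have n2 : ps k ≤ 19 / 20 * ps (i + k) := by
      have := mul_le_mul m4 (by linarith : log (k : ℝ) + 20 ≤ log (i + k) + 20)
        (by linarith [log_nonneg k0]) (by positivity)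
      unfold ps; linarith
    have n3 : log (i + 2 : ℝ) ≤ ps (i + k) := by
      have := mul_le_mul_of_nonneg_right m5 (by linarith : 0 ≤ log (i + k : ℝ) + 20)
      rw [show (i + 2 : ℝ) = i + 1 + 1 by ring]
      unfold ps; linarith
    have n4 := ps_nonneg (x := i + k) (by linarith)
    have := rr_nonneg
    linarith

theorem main : ∃ R : ℝ, ∀ n : ℕ,
    R ^ n * exp (-(10 ^ 6 * √n * log (n + 1))) ≤ FF n ∧ (FF n : ℝ) ≤ (n + 1) * R ^ n := by
  refine ⟨exp rr, fun n => ⟨?_, ?_⟩⟩
  · rw [← exp_nat_mul, ← exp_add, ← exp_log (F_pos n), exp_le_exp]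
    have a := LP_le_LF n
    have s0 := sqrt_nonneg (n : ℝ)
    unfold LF at a
    by_cases c : n < 40000
    · rcases Nat.eq_zero_or_pos n with rfl | h
      · simpa using (LP_nonneg 0).trans a
      have := small c
      have := LP_nonneg n
      have l : log 2 ≤ log (n + 1 : ℝ) := log_le_log (by norm_num) (by
        have : (1 : ℝ) ≤ n := by exact_mod_cast h
        linarith)
      have := mul_le_mul_of_nonneg_left (log_two_gt_d9.le.trans l) s0
      nlinarith
    · have b := stepC n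
      have hn : (40000 : ℝ) ≤ n := by exact_mod_cast not_lt.1 c
      have l1 : log (n : ℝ) ≤ log (n + 1) := log_le_log (by linarith) (by linarith)
      have l2 : 10 ≤ log (n + 1 : ℝ) := by
        have : log ((2 : ℝ) ^ 15) ≤ log (n + 1) := log_le_log (by norm_num) (by linarith)
        rw [log_pow] at this
        have := log_two_gt_d9
        push_cast at *; linarith
      have := mul_le_mul_of_nonneg_left (by linarith : log (n : ℝ) + 20 ≤ 3 * log (n + 1)) s0
      have := mul_nonneg s0 (by linarith : 0 ≤ log (n + 1 : ℝ))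
      unfold ps at b
      nlinarith
  · cases n with
    | zero =>
      have : FF 0 ≤ 1 := by
        rw [FF]
        exact Finite.card_le_one_iff_subsingleton.2
          ⟨fun a b => Subtype.ext (Equiv.ext fun i => Subsingleton.elim (α := Fin 1) _ _)⟩
      simpa using (by exact_mod_cast this : (FF 0 : ℝ) ≤ 1)
    | succ n =>
      have a := LF_le n
      have b := LP_le_rr n
      have c := rr_nonneg
      rw [← exp_nat_mul, ← exp_log (F_pos _), ← exp_log (x := ((n + 1 : ℕ) : ℝ) + 1) (by positivity),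
        ← exp_add, exp_le_exp]
      push_cast
      rw [show (n + 1 + 1 : ℝ) = n + 2 by ring]
      unfold LF at a
      nlinarith

end Pool.Agent.Lib.HWF
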