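import Pool.Agent.Lib.HWF.Sys

set_option autoImplicit false

namespace Pool.Agent.Lib.HWF

open Finset Pool.Agent.Lib.MP_8a1ce7_co.D

/-- a pair of non crossing involutions -/
def Sys (X : Finset ℕ) (M : Bool → ℕ → ℕ) : Prop := ∀ b, NI X (M b)

/-- number of missing arcs -/
def tf (X : Finset ℕ) (M : Bool → ℕ → ℕ) : ℕ := fc X (M true) + fc X (M false)

/-- same component -/
def Rl (M : Bool → ℕ → ℕ) : ℕ → ℕ → Prop := Relation.ReflTransGen fun x y => ∃ b, M b x = y

def Conn (X : Finset ℕ) (M : Bool → ℕ → ℕ) : Prop := ∀ x ∈ X, ∀ y ∈ X, Rl M x y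

/-- replace the first involution -/
def upd (M : Bool → ℕ → ℕ) (V : ℕ → ℕ) : Bool → ℕ → ℕ := fun b => cond b V (M false)

/-- remove the arc at `p` -/
def cut (U : ℕ → ℕ) (p y : ℕ) : ℕ := if y = p ∨ y = U p then y else U y

variable {X : Finset ℕ} {U V : ℕ → ℕ} {M M' : Bool → ℕ → ℕ} {p q x y : ℕ}

@[simp] lemma upd_true : upd M V true = V := rfl
@[simp] lemma upd_false : upd M V false = M false := rfl

lemma Sys.upd (h : Sys X M) (hV : NI X V) : Sys X (upd M V) := by
  intro b; cases b
  · exact h false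
  · exact hV

lemma Rl.rfl : Rl M x x := Relation.ReflTransGen.refl

lemma Rl.step (b : Bool) (x : ℕ) : Rl M x (M b x) := Relation.ReflTransGen.single ⟨b, Eq.refl _⟩

lemma Rl.trans {z : ℕ} (h : Rl M x y) (h' : Rl M y z) : Rl M x z := Relation.ReflTransGen.trans h h'

lemma Rl.symm (hs : Sys X M) (h : Rl M x y) : Rl M y x := by
  induction h with
  | refl => exact Rl.rfl
  | tail _ h2 ih =>
    obtain ⟨b, rfl⟩ := h2
    refine Rl.trans ?_ ih
    have := Rl.step (M := M) b (M b ‹ℕ›)
    rwa [(hs b).inv] at this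

lemma Rl.mem (hs : Sys X M) (hx : x ∈ X) (h : Rl M x y) : y ∈ X := by
  induction h with
  | refl => exact hx
  | tail _ h2 ih => obtain ⟨b, rfl⟩ := h2; exact (hs b).mem ih

lemma Rl.mono (H : ∀ b x, Rl M' x (M b x)) (h : Rl M x y) : Rl M' x y := by
  induction h with
  | refl => exact Rl.rfl
  | tail _ h2 ih => obtain ⟨b, rfl⟩ := h2; exact ih.trans (H b _)

lemma cut_NI (h : NI X U) (p : ℕ) : NI X (cut U p) := by
  have ip := h.inv p
  refine ⟨fun x => ?_, fun x hx => ?_, fun x y h1 h2 => ?_⟩
  · have ix := h.inv x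
    unfold cut; grind
  · have := h.out x hx
    unfold cut; grind
  · have ix := h.inv x
    have iy := h.inv y
    have n := h.nc x y
    clear h
    unfold NC cut at *
    grind (splits := 30)

open Classical in
/-- the component of `p` -/
noncomputable def comp (X : Finset ℕ) (M : Bool → ℕ → ℕ) (p : ℕ) : Finset ℕ := X.filter (Rl M p)

lemma mem_comp : y ∈ comp X M p ↔ y ∈ X ∧ Rl M p y := by
  classical
  simp [comp]

lemma par_comp (hs : Sys X M) (p : ℕ) : tf (comp X M p) M % 2 = 0 := by
  have H : ∀ b, (comp X M p).card % 2 = fc (comp X M p) (M b) % 2 := fun b =>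
    par (fun x hx => mem_comp.2 ⟨(hs b).mem (mem_comp.1 hx).1, (mem_comp.1 hx).2.trans (Rl.step b x)⟩)
      (hs b).inv
  have := H true
  have := H false
  unfold tf
  omega

/-- a closed component stays connected when one arc is removed -/
lemma cutL (hs : Sys X M) (hp : p ∈ X) (hn : ∀ b y, Rl M p y → M b y ≠ y)
    (h0 : M' false = M false)
    (h1 : ∀ y, Rl M p y → y ≠ p → y ≠ M true p → M' true y = M true y) : Rl M' p (M true p) := by
  have hs0 : Sys X (upd M (cut (M true) p)) := hs.upd (cut_NI (hs true) p)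
  have key : ∀ y, Rl (upd M (cut (M true) p)) p y → Rl M p y ∧ Rl M' p y := by
    intro y hy
    induction hy with
    | refl => exact ⟨Rl.rfl, Rl.rfl⟩
    | @tail u v _ h2 ih =>
      obtain ⟨b, rfl⟩ := h2
      cases b
      · refine ⟨ih.1.trans (Rl.step false u), ih.2.trans ?_⟩
        rw [upd_false, ← h0]; exact Rl.step false u
      · rw [upd_true, cut]
        split_ifs with h
        · exact ih
        · rw [not_or] at h
          refine ⟨ih.1.trans (Rl.step true u), ih.2.trans ?_⟩
          rw [← h1 u ih.1 h.1 h.2]; exact Rl.step true u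
  by_contra hc
  have hpar := par_comp hs0 p
  have e0 : fc (comp X (upd M (cut (M true) p)) p) (M false) = 0 := by
    rw [fc, card_eq_zero, filter_eq_empty_iff]
    exact fun y hy => hn false y (key y (mem_comp.1 hy).2).1
  have e1 : fc (comp X (upd M (cut (M true) p)) p) (cut (M true) p) = 1 := by
    rw [fc, card_eq_one]
    refine ⟨p, eq_singleton_iff_unique_mem.2 ⟨mem_filter.2 ⟨mem_comp.2 ⟨hp, Rl.rfl⟩, by simp [cut]⟩,
      fun y hy => ?_⟩⟩
    obtain ⟨h2, h3⟩ := mem_filter.1 hy
    have h4 := key y (mem_comp.1 h2).2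
    by_contra h5
    have h6 : y ≠ M true p := fun e => hc (e ▸ h4.2)
    rw [cut, if_neg (by tauto)] at h3
    exact hn true y h4.1 h3
  rw [tf, upd_true, upd_false, e0, e1] at hpar
  omega

lemma fc_add {C D : Finset ℕ} (hC : C ⊆ X) (hD : D ⊆ X) (hd : Disjoint C D) :
    fc C U + fc D U ≤ fc X U := by
  unfold fc
  rw [← card_union_of_disjoint (disjoint_filter_filter hd), ← filter_union]
  exact card_le_card (filter_subset_filter _ (union_subset hC hD))

lemma tf_pos (hs : Sys X M) (hp : p ∈ X) (h : ¬∀ b y, Rl M p y → M b y ≠ y) :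
    2 ≤ tf (comp X M p) M := by
  push Not at h
  obtain ⟨b, y, h1, h2⟩ := h
  have h3 : 0 < fc (comp X M p) (M b) :=
    card_pos.2 ⟨y, mem_filter.2 ⟨mem_comp.2 ⟨h1.mem hs hp, h1⟩, h2⟩⟩
  have := par_comp hs p
  unfold tf at *
  cases b <;> omega

/-- a switch at two neighbours merges their components -/
lemma merge_step (hs : Sys X M) (ht : tf X M ≤ 2) (ha : Nb X p q) (hn : ¬Rl M p q) :
    ∀ b x, Rl (upd M (sw (M true) p q)) x (M b x) := by
  have hs' : Sys X (upd M (sw (M true) p q)) := hs.upd (sw_NI (hs true) ha)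
  obtain ⟨hp, hq, hpq, -⟩ := ha
  have ip := (hs true).inv p
  have iq := (hs true).inv q
  have a1 : M true p ≠ q := fun e => hn (e ▸ Rl.step true p)
  have s1 : Rl (upd M (sw (M true) p q)) p q := by
    have := Rl.step (M := upd M (sw (M true) p q)) true p
    rwa [upd_true, sw, if_pos rfl] at this
  have s2 : M true p ≠ p → M true q ≠ q → Rl (upd M (sw (M true) p q)) (M true p) (M true q) := by
    intro h1 h2
    have := Rl.step (M := upd M (sw (M true) p q)) true (M true p)
    rw [upd_true] at this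
    have e : sw (M true) p q (M true p) = M true q := by unfold sw del; grind
    rwa [e] at this
  have s3 : ∀ y, y ≠ p → y ≠ q → y ≠ M true p → y ≠ M true q → sw (M true) p q y = M true y := by
    intro y h1 h2 h3 h4
    have := (hs true).inv y
    unfold sw del; grind
  have key : Rl (upd M (sw (M true) p q)) p (M true p) ∧ Rl (upd M (sw (M true) p q)) q (M true q) := by
    by_cases H : ∀ b y, Rl M p y → M b y ≠ y
    · have c1 : Rl (upd M (sw (M true) p q)) p (M true p) := by
        refine cutL hs hp H rfl fun y hy h1 h2 => s3 y h1 (fun e => hn (e ▸ hy)) h2 fun e => hn ?_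
        rw [e] at hy
        exact hy.trans ((Rl.step true q).symm hs)
      refine ⟨c1, ?_⟩
      by_cases e : M true q = q
      · rw [e]; exact Rl.rfl
      · exact ((s1.symm hs').trans c1).trans (s2 (H true p Rl.rfl) e)
    · have H2 : ∀ b y, Rl M q y → M b y ≠ y := by
        by_contra H2
        have t1 := tf_pos hs hp H
        have t2 := tf_pos hs hq H2
        have hd : Disjoint (comp X M p) (comp X M q) := by
          rw [disjoint_left]
          exact fun y h1 h2 => hn ((mem_comp.1 h1).2.trans ((mem_comp.1 h2).2.symm hs))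
        have sb : ∀ z, comp X M z ⊆ X := fun z y hy => (mem_comp.1 hy).1
        have := fc_add (U := M true) (sb p) (sb q) hd
        have := fc_add (U := M false) (sb p) (sb q) hd
        unfold tf at *
        omega
      have c2 : Rl (upd M (sw (M true) p q)) q (M true q) := by
        refine cutL hs hq H2 rfl fun y hy h1 h2 =>
          s3 y (fun e => hn ((e ▸ hy).symm hs)) h1 (fun e => hn ?_) h2
        rw [e] at hy
        exact (Rl.step true p).trans (hy.symm hs)
      refine ⟨?_, c2⟩
      by_cases e : M true p = p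
      · rw [e]; exact Rl.rfl
      · exact (s1.trans c2).trans ((s2 e (H2 true q Rl.rfl)).symm hs')
  intro b x
  cases b
  · exact Rl.step (M := upd M (sw (M true) p q)) false x
  · by_cases h1 : x = p
    · rw [h1]; exact key.1
    by_cases h2 : x = q
    · rw [h2]; exact key.2
    by_cases h3 : x = M true p
    · rw [h3, ip]; exact key.1.symm hs'
    by_cases h4 : x = M true q
    · rw [h4, iq]; exact key.2.symm hs'
    rw [← s3 x h1 h2 h3 h4]
    exact Rl.step (M := upd M (sw (M true) p q)) true x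

lemma nb_ind {R : ℕ → ℕ → Prop} (h1 : ∀ p q, Nb X p q → R p q)
    (h2 : ∀ x y z, x ∈ X → y ∈ X → z ∈ X → x < y → y < z → R x y → R y z → R x z) :
    ∀ d x y, y - x = d → x ∈ X → y ∈ X → x < y → R x y := by
  intro d
  induction d using Nat.strong_induction_on with
  | _ d ih =>
    intro x y hd hx hy hxy
    by_cases h : ∀ z ∈ X, z ≤ x ∨ y ≤ z
    · exact h1 x y ⟨hx, hy, hxy, h⟩
    · push Not at h
      obtain ⟨z, hz, h3, h4⟩ := h
      exact h2 x z y hx hz hy h3 h4 (ih _ (by omega) x z rfl hx hz h3) (ih _ (by omega) z y rfl hz hy h4)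

lemma conn_of_nb (hs : Sys X M) (h : ∀ p q, Nb X p q → Rl M p q) : Conn X M := by
  have H := nb_ind h fun _ _ _ _ _ _ _ _ a b => a.trans b
  intro x hx y hy
  rcases lt_trichotomy x y with h1 | rfl | h1
  · exact H _ x y rfl hx hy h1
  · exact Rl.rfl
  · exact (H _ y x rfl hy hx h1).symm hs

/-- all components can be merged by changing few values -/
lemma merge : ∀ (n : ℕ) (Hs : Finset ℕ) (M : Bool → ℕ → ℕ), Hs.card = n → Sys X M → tf X M ≤ 2 →
    (∀ x ∈ X, ∃ h ∈ Hs, Rl M x h) →
    ∃ (M' : Bool → ℕ → ℕ) (E : Finset ℕ), Sys X M' ∧ Conn X M' ∧ E.card ≤ 4 * n ∧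
      ∀ b x, x ∉ E → M' b x = M b x := by
  intro n
  induction n with
  | zero =>
    intro Hs M hc hs _ hh
    refine ⟨M, ∅, hs, fun x hx => ?_, by simp, fun _ _ _ => rfl⟩
    obtain ⟨h, h1, -⟩ := hh x hx
    rw [card_eq_zero.1 hc] at h1
    simp at h1
  | succ n ih =>
    intro Hs M hc hs ht hh
    by_cases hcn : ∀ p q, Nb X p q → Rl M p q
    · exact ⟨M, ∅, hs, conn_of_nb hs hcn, by simp, fun _ _ _ => rfl⟩
    push Not at hcn
    obtain ⟨p, q, ha, hn⟩ := hcn
    have hs' : Sys X (upd M (sw (M true) p q)) := hs.upd (sw_NI (hs true) ha)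
    have st := merge_step hs ht ha hn
    have s1 : Rl (upd M (sw (M true) p q)) p q := by
      have := Rl.step (M := upd M (sw (M true) p q)) true p
      rwa [upd_true, sw, if_pos rfl] at this
    obtain ⟨h1, m1, r1⟩ := hh p ha.1
    obtain ⟨h2, m2, r2⟩ := hh q ha.2.1
    have hne : h1 ≠ h2 := fun e => hn (r1.trans ((e ▸ r2).symm hs))
    obtain ⟨M', E, a1, a2, a3, a4⟩ := ih (Hs.erase h2) (upd M (sw (M true) p q))
      (by rw [card_erase_of_mem m2, hc]; rfl) hs'
      (by have := fc_sw (hs true) ha; unfold tf at *; rw [upd_true, upd_false]; omega)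
      (by
        intro x hx
        obtain ⟨h, m, r⟩ := hh x hx
        by_cases e : h = h2
        · refine ⟨h1, mem_erase.2 ⟨hne, m1⟩, ?_⟩
          rw [e] at r
          exact (((r.trans (r2.symm hs)).mono st).trans (s1.symm hs')).trans (r1.mono st)
        · exact ⟨h, mem_erase.2 ⟨e, m⟩, r.mono st⟩)
    refine ⟨M', E ∪ {p, q, M true p, M true q}, a1, a2, ?_, fun b x hx => ?_⟩
    · have := card_union_le E {p, q, M true p, M true q}
      have := card_le_four (a := p) (b := q) (c := M true p) (d := M true q)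
      omega
    · simp only [mem_union, mem_insert, mem_singleton, not_or] at hx
      rw [a4 b x hx.1]
      cases b
      · rfl
      · have := (hs true).inv x
        rw [upd_true]
        unfold sw del
        grind

/-- connected with a free end -/
def Good (X : Finset ℕ) (M : Bool → ℕ → ℕ) : Prop :=
  Sys X M ∧ Conn X M ∧ ∃ b, ∃ x ∈ X, M b x = x

lemma to_good {Hs : Finset ℕ} (hX : X.Nonempty) (hs : Sys X M) (ht : tf X M ≤ 2)
    (hh : ∀ x ∈ X, ∃ h ∈ Hs, Rl M x h) :
    ∃ (M' : Bool → ℕ → ℕ) (E : Finset ℕ), Good X M' ∧ E.card ≤ 4 * Hs.card + 2 ∧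
      ∀ b x, x ∉ E → M' b x = M b x := by
  obtain ⟨M1, E, a1, a2, a3, a4⟩ := merge _ Hs M rfl hs ht hh
  by_cases hf : ∃ b, ∃ x ∈ X, M1 b x = x
  · exact ⟨M1, E, ⟨a1, a2, hf⟩, by omega, a4⟩
  push Not at hf
  obtain ⟨p, hp⟩ := hX
  have hs' : Sys X (upd M1 (cut (M1 true) p)) := a1.upd (cut_NI (a1 true) p)
  have c : Rl (upd M1 (cut (M1 true) p)) p (M1 true p) :=
    cutL a1 hp (fun b y hy => hf b y (hy.mem a1 hp)) rfl fun y _ h1 h2 => by
      rw [upd_true, cut, if_neg (by tauto)]
  have st : ∀ b x, Rl (upd M1 (cut (M1 true) p)) x (M1 b x) := by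
    intro b x
    cases b
    · exact Rl.step (M := upd M1 (cut (M1 true) p)) false x
    · by_cases h1 : x = p
      · rw [h1]; exact c
      by_cases h2 : x = M1 true p
      · rw [h2, (a1 true).inv]; exact c.symm hs'
      have := Rl.step (M := upd M1 (cut (M1 true) p)) true x
      rwa [upd_true, cut, if_neg (by tauto)] at this
  refine ⟨_, E ∪ {p, M1 true p}, ⟨hs', fun x hx y hy => (a2 x hx y hy).mono st, true, p, hp,
    by simp [cut]⟩, ?_, fun b x hx => ?_⟩
  · have := card_union_le E {p, M1 true p}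
    have := card_le_two (a := p) (b := M1 true p)
    omega
  · simp only [mem_union, mem_insert, mem_singleton, not_or] at hx
    rw [← a4 b x hx.1]
    cases b
    · rfl
    · rw [upd_true, cut, if_neg (by tauto)]

end Pool.Agent.Lib.HWF
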