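import Pool.Agent.Lib.HWF.Piece

set_option autoImplicit false

namespace Pool.Agent.Lib.HWF

open Finset Pool.Agent.Lib.MP_8a1ce7_co.D

variable {X : Finset ℕ} {M M' : Bool → ℕ → ℕ} {n : ℕ}

/-- the side of the crease `i` -/
def sd (c : Bool) (i : ℕ) : Bool := if i % 2 = 0 then !c else c

lemma sd_succ (c : Bool) (i : ℕ) : sd c (i + 1) = !sd c i := by
  unfold sd; split_ifs <;> first | omega | simp

lemma sd_par (c : Bool) {i j : ℕ} : sd c i = sd c j ↔ i % 2 = j % 2 := by
  unfold sd; cases c <;> split_ifs <;> simp <;> omega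

def walk (M : Bool → ℕ → ℕ) (c : Bool) (x : ℕ) : ℕ → ℕ
  | 0 => x
  | i + 1 => M (sd c i) (walk M c x i)

lemma bool_ne {b c : Bool} (h : b ≠ c) : b = !c := by cases b <;> cases c <;> simp_all

lemma path (hs : Sys X M) (hc : Conn X M) {c : Bool} {x : ℕ} (hx : x ∈ X) (h0 : M c x = x)
    (hn : X.card = n + 1) : (∀ i j, i ≤ n → j ≤ n → walk M c x i = walk M c x j → i = j) ∧
      (∀ y ∈ X, ∃ i, i ≤ n ∧ walk M c x i = y) ∧ M (sd c n) (walk M c x n) = walk M c x n := by
  have mem : ∀ i, walk M c x i ∈ X := fun i => by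
    induction i with
    | zero => exact hx
    | succ i ih => exact (hs _).mem ih
  have back : ∀ i b, b ≠ sd c i → M b (walk M c x i) = walk M c x (i - 1) := by
    intro i b hb
    cases i with
    | zero =>
      have : b = c := by rw [bool_ne hb]; simp [sd]
      rw [this]; exact h0
    | succ i =>
      have : b = sd c i := by rw [bool_ne hb, sd_succ]; simp
      rw [this, walk, (hs _).inv]; rfl
  have ex : ∃ t, ∃ j, j ≤ t ∧ walk M c x (t + 1) = walk M c x j := by
    obtain ⟨i, -, j, -, hij, e⟩ := exists_ne_map_eq_of_card_lt_of_maps_to (s := range (X.card + 1))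
      (t := X) (by simp) (f := walk M c x) fun i _ => mem i
    rcases lt_or_gt_of_ne hij with h | h
    · exact ⟨j - 1, i, by omega, by rw [Nat.sub_add_cancel (by omega), e]⟩
    · exact ⟨i - 1, j, by omega, by rw [Nat.sub_add_cancel (by omega), e]⟩
  obtain ⟨j, hj, ej⟩ := Nat.find_spec ex
  have mn := fun m => Nat.find_min ex (m := m)
  generalize Nat.find ex = t at hj ej mn
  have inj : ∀ i j, i ≤ t → j ≤ t → walk M c x i = walk M c x j → i = j := by
    have : ∀ i j, i < j → j ≤ t → walk M c x i ≠ walk M c x j := fun i j h1 h2 e =>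
      mn (j - 1) (by omega) ⟨i, by omega, by rw [Nat.sub_add_cancel (by omega), e]⟩
    intro i j hi hj e
    rcases lt_trichotomy i j with h | h | h
    · exact absurd e (this i j h hj)
    · exact h
    · exact absurd e.symm (this j i h hi)
  have fx : walk M c x (t + 1) = walk M c x t := by
    by_cases h : j = t
    · rw [ej, h]
    have e : M (sd c t) (walk M c x j) = walk M c x t := by rw [← ej, walk, (hs _).inv]
    by_cases hp : sd c t = sd c j
    · have := inj (j + 1) t (by omega) le_rfl (by rw [← e, hp]; rfl)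
      rw [sd_par] at hp; omega
    · rw [back j _ hp] at e
      have := inj _ _ (by omega) le_rfl e
      omega
  have onto : ∀ y, Rl M x y → ∃ i, i ≤ t ∧ walk M c x i = y := by
    intro y hy
    induction hy with
    | refl => exact ⟨0, Nat.zero_le _, rfl⟩
    | tail _ h ih =>
      obtain ⟨b, rfl⟩ := h
      obtain ⟨i, hi, rfl⟩ := ih
      by_cases hb : b = sd c i
      · rcases hi.lt_or_eq with h | h
        · exact ⟨i + 1, h, by rw [hb]; rfl⟩
        · exact ⟨t, le_rfl, by rw [hb, h]; exact fx.symm⟩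
      · exact ⟨i - 1, by omega, (back i b hb).symm⟩
  have eq : X = (range (t + 1)).image (walk M c x) := by
    ext y
    simp only [mem_image, mem_range, Nat.lt_succ_iff]
    exact ⟨fun hy => onto y (hc x hx y hy), fun ⟨i, _, e⟩ => e ▸ mem i⟩
  have ct : t = n := by
    rw [eq, card_image_of_injOn fun i hi j hj => inj i j (by simpa [Nat.lt_succ_iff] using hi)
      (by simpa [Nat.lt_succ_iff] using hj), card_range] at hn
    omega
  subst ct
  exact ⟨inj, fun y hy => onto y (hc x hx y hy), fx⟩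

/-- rank in `X` -/
def rk (X : Finset ℕ) (x : ℕ) : ℕ := (X.filter fun y => y < x).card

lemma rk_lt {x y : ℕ} (hx : x ∈ X) (h : x < y) : rk X x < rk X y :=
  card_lt_card ⟨fun _ hz => mem_filter.2 ⟨(mem_filter.1 hz).1, (mem_filter.1 hz).2.trans h⟩,
    fun hh => lt_irrefl x (mem_filter.1 (hh (mem_filter.2 ⟨hx, h⟩))).2⟩

lemma rk_card {x : ℕ} (hx : x ∈ X) : rk X x < X.card :=
  card_lt_card ⟨filter_subset _ _, fun hh => lt_irrefl x (mem_filter.1 (hh hx)).2⟩

lemma rk_iff {x y : ℕ} (hx : x ∈ X) (hy : y ∈ X) : rk X x < rk X y ↔ x < y := by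
  refine ⟨fun h => ?_, rk_lt hx⟩
  rcases lt_trichotomy x y with h1 | rfl | h1
  · exact h1
  · omega
  · have := rk_lt hy h1; omega

lemma rk_inj {x y : ℕ} (hx : x ∈ X) (hy : y ∈ X) (h : rk X x = rk X y) : x = y := by
  have := rk_iff hx hy
  have := rk_iff hy hx
  omega

/-- `h` lists the ranks of the points along the strip -/
def Code (X : Finset ℕ) (M : Bool → ℕ → ℕ) (c : Bool) (n : ℕ) (h : Equiv.Perm (Fin (n + 1))) : Prop :=
  ∃ w : ℕ → ℕ, (∀ i, i ≤ n → w i ∈ X ∧ rk X (w i) = ext n h i) ∧ (∀ y ∈ X, ∃ i, i ≤ n ∧ w i = y) ∧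
    (∀ i, i < n → M (sd c i) (w i) = w (i + 1)) ∧ M c (w 0) = w 0 ∧ M (sd c n) (w n) = w n

lemma code_ex (hg : Good X M) (hn : X.card = n + 1) : ∃ c h, IsF n h ∧ Code X M c n h := by
  obtain ⟨hs, hc, c, x, hx, h0⟩ := hg
  obtain ⟨p1, p2, p3⟩ := path hs hc hx h0 hn
  have mem : ∀ i, walk M c x i ∈ X := fun i => by
    induction i with
    | zero => exact hx
    | succ i ih => exact (hs _).mem ih
  let f : Fin (n + 1) → Fin (n + 1) := fun i => ⟨rk X (walk M c x i), (rk_card (mem i)).trans_eq hn⟩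
  have fi : Function.Injective f := fun i j e => Fin.ext
    (p1 _ _ (Nat.le_of_lt_succ i.isLt) (Nat.le_of_lt_succ j.isLt)
      (rk_inj (mem _) (mem _) (congrArg Fin.val e)))
  let h : Equiv.Perm (Fin (n + 1)) := Equiv.ofBijective f (Finite.injective_iff_bijective.1 fi)
  have v : ∀ i, i ≤ n → ext n h i = rk X (walk M c x i) := fun i hi => ext_val h ⟨i, by omega⟩
  refine ⟨c, h, (isF_iff h).2 fun k m hk hm hne hp => ?_, walk M c x,
    fun i hi => ⟨mem i, (v i hi).symm⟩, p2, fun _ _ => rfl, h0, p3⟩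
  rw [v k hk.le, v m hm.le, v (k + 1) hk, v (m + 1) hm]
  have := (hs (sd c m)).nc (walk M c x m) (walk M c x k) (fun e => hne (p1 _ _ hk.le hm.le e))
    (fun e => by have := p1 k (m + 1) hk.le hm e; omega)
  have e : M (sd c m) (walk M c x k) = walk M c x (k + 1) := by
    rw [(sd_par c).2 hp.symm]; rfl
  rw [e] at this
  unfold NC at this ⊢
  simp only [rk_iff (mem _) (mem _)]
  exact this

lemma code_inj (hs : Sys X M) (hs' : Sys X M') {c : Bool} {h : Equiv.Perm (Fin (n + 1))}
    (a : Code X M c n h) (a' : Code X M' c n h) : M = M' := by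
  obtain ⟨w, a1, a2, a3, a4, a5⟩ := a
  obtain ⟨w', b1, -, b3, b4, b5⟩ := a'
  have e : ∀ i, i ≤ n → w i = w' i := fun i hi =>
    rk_inj (a1 i hi).1 (b1 i hi).1 ((a1 i hi).2.trans (b1 i hi).2.symm)
  ext b x
  by_cases hx : x ∈ X
  swap
  · rw [(hs b).out x hx, (hs' b).out x hx]
  obtain ⟨i, hi, rfl⟩ := a2 x hx
  by_cases hb : b = sd c i
  · rcases hi.lt_or_eq with h | h
    · rw [hb, a3 i h, e i hi, b3 i h, e _ h]
    · rw [hb, h, a5, e n le_rfl, b5]
  · cases i with
    | zero =>
      have : b = c := by rw [bool_ne hb]; simp [sd]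
      rw [this, a4, e 0 hi, b4]
    | succ i =>
      have : b = sd c i := by rw [bool_ne hb, sd_succ]; simp
      rw [this]
      conv_lhs => rw [← a3 i hi, (hs _).inv]
      rw [e _ hi, ← b3 i hi, (hs' _).inv, e i (by omega)]

lemma good_fin (hn : X.card = n + 1) :
    ∃ A : Finset (Bool → ℕ → ℕ), (∀ M, Good X M → M ∈ A) ∧ A.card ≤ 2 * FF n := by
  classical
  have H : ∀ p : Bool × Equiv.Perm (Fin (n + 1)), ∃ M0 : Bool → ℕ → ℕ,
      ∀ M, Sys X M → Code X M p.1 n p.2 → M = M0 := by
    intro p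
    by_cases h : ∃ M, Sys X M ∧ Code X M p.1 n p.2
    · obtain ⟨M0, h1, h2⟩ := h
      exact ⟨M0, fun M a b => code_inj a h1 b h2⟩
    · exact ⟨fun _ x => x, fun M a b => absurd ⟨M, a, b⟩ h⟩
  choose φ H using H
  refine ⟨((univ : Finset Bool) ×ˢ univ.filter (IsF n)).image φ, fun M hM => ?_,
    card_image_le.trans ?_⟩
  · obtain ⟨c, h, h1, h2⟩ := code_ex hM hn
    exact mem_image.2 ⟨(c, h), by simp [h1], (H (c, h) M hM.1 h2).symm⟩
  · rw [card_product, FF_eq]; simp

/-- the neighbour of the segment `i` through the side `b` -/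
def nbr (n : ℕ) (b : Bool) (i : ℕ) : ℕ := if b = sd true i then (if i < n then i + 1 else i) else i - 1

lemma nbr_cases (n : ℕ) (b : Bool) {i : ℕ} (hi : i ≤ n) :
    (nbr n b i = i + 1 ∧ i < n ∧ (b = true ↔ i % 2 = 1)) ∨
    (nbr n b i + 1 = i ∧ (b = true ↔ i % 2 = 0)) ∨
    (nbr n b i = i ∧ (i = n ∧ (b = true ↔ n % 2 = 1) ∨ i = 0 ∧ b = true)) := by
  unfold nbr sd
  cases b <;> split_ifs <;> simp_all <;> omega

/-- the two involutions of a folding -/
def mk (n : ℕ) (h : Equiv.Perm (Fin (n + 1))) (b : Bool) (y : ℕ) : ℕ :=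
  if y ≤ n then ext n h (nbr n b (ext n h.symm y)) else y

lemma mk_H (h : Equiv.Perm (Fin (n + 1))) (b : Bool) {i : ℕ} (hi : i ≤ n) :
    mk n h b (ext n h i) = ext n h (nbr n b i) := by
  have := (ext_inv h).hH i hi
  rw [mk, if_pos this.1, this.2]

lemma mk_succ (h : Equiv.Perm (Fin (n + 1))) {i : ℕ} (hi : i < n) :
    mk n h (sd true i) (ext n h i) = ext n h (i + 1) := by
  rw [mk_H h _ hi.le, nbr, if_pos rfl, if_pos hi]

lemma mk_sys {h : Equiv.Perm (Fin (n + 1))} (hf : IsF n h) : Sys (range (n + 1)) (mk n h) := by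
  have I := ext_inv h
  have C := (isF_iff h).1 hf
  have le : ∀ b i, i ≤ n → nbr n b i ≤ n := fun b i hi => by have := nbr_cases n b hi; omega
  intro b
  refine ⟨fun y => ?_, fun y hy => if_neg (by simpa [Nat.lt_succ_iff] using hy), fun x y h1 h2 => ?_⟩
  · by_cases hy : y ≤ n
    · obtain ⟨g1, g2⟩ := I.hG y hy
      rw [← g2, mk_H h b g1, mk_H h b (le b _ g1)]
      congr 1
      have := nbr_cases n b g1
      have := nbr_cases n b (le b _ g1)
      cases b <;> simp only [Bool.false_eq_true, false_iff, true_iff, and_false, or_false] at * <;> omega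
    · have e : mk n h b y = y := if_neg hy
      rw [e, e]
  · by_cases hx : x ≤ n
    swap
    · rw [show mk n h b x = x from if_neg hx]; unfold NC; tauto
    by_cases hy : y ≤ n
    swap
    · rw [show mk n h b y = y from if_neg hy]; unfold NC; tauto
    obtain ⟨g1, g2⟩ := I.hG x hx
    obtain ⟨g3, g4⟩ := I.hG y hy
    generalize ext n h.symm x = i at g1 g2
    generalize ext n h.symm y = j at g3 g4
    subst g2 g4
    rw [mk_H h b g1] at h2 ⊢
    rw [mk_H h b g3]
    have d1 : j ≠ i := fun e => h1 (by rw [e])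
    have d2 : j ≠ nbr n b i := fun e => h2 (by rw [← e])
    rcases nbr_cases n b g1 with ⟨a1, a2, a3⟩ | ⟨a1, a2⟩ | ⟨a1, -⟩
    · rcases nbr_cases n b g3 with ⟨b1, b2, b3⟩ | ⟨b1, b2⟩ | ⟨b1, -⟩
      · rw [a1, b1]; exact C j i b2 a2 d1 (by cases b <;> simp_all)
      · have := C (nbr n b j) i (by omega) a2 (by omega) (by cases b <;> simp_all <;> omega)
        rw [b1] at this
        rw [a1]; unfold NC at this ⊢; tauto
      · rw [b1]; unfold NC; tauto
    · rcases nbr_cases n b g3 with ⟨b1, b2, b3⟩ | ⟨b1, b2⟩ | ⟨b1, -⟩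
      · have := C j (nbr n b i) b2 (by omega) d2 (by cases b <;> simp_all <;> omega)
        rw [a1] at this
        rw [b1]; unfold NC at this ⊢; tauto
      · have := C (nbr n b j) (nbr n b i) (by omega) (by omega) (by omega)
          (by cases b <;> simp_all <;> omega)
        rw [a1, b1] at this
        unfold NC at this ⊢; tauto
      · rw [b1]; unfold NC; tauto
    · rw [a1]; unfold NC; tauto

lemma mk_conn {h : Equiv.Perm (Fin (n + 1))} (hf : IsF n h) : Conn (range (n + 1)) (mk n h) := by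
  have H : ∀ i, i ≤ n → Rl (mk n h) (ext n h 0) (ext n h i) := by
    intro i hi
    induction i with
    | zero => exact Rl.rfl
    | succ i ih => rw [← mk_succ h hi]; exact (ih (by omega)).trans (Rl.step _ _)
  intro x hx y hy
  obtain ⟨g1, g2⟩ := (ext_inv h).hG x (by simpa [Nat.lt_succ_iff] using hx)
  obtain ⟨g3, g4⟩ := (ext_inv h).hG y (by simpa [Nat.lt_succ_iff] using hy)
  rw [← g2, ← g4]
  exact ((H _ g1).symm (mk_sys hf)).trans (H _ g3)

lemma mk_tf (h : Equiv.Perm (Fin (n + 1))) : tf (range (n + 1)) (mk n h) ≤ 2 := by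
  have I := ext_inv h
  have H : ∀ b y, y ∈ (range (n + 1)).filter (fun y => mk n h b y = y) →
      (y = ext n h n ∧ (b = true ↔ n % 2 = 1) ∨ y = ext n h 0 ∧ b = true) := by
    intro b y hy
    obtain ⟨h1, h2⟩ := mem_filter.1 hy
    obtain ⟨g1, g2⟩ := I.hG y (by simpa [Nat.lt_succ_iff] using h1)
    generalize ext n h.symm y = i at g1 g2
    subst g2
    rw [mk_H h b g1] at h2
    have c := nbr_cases n b g1
    have := I.injH (by omega) g1 h2
    rcases c with c | c | ⟨-, ⟨rfl, c⟩ | ⟨rfl, c⟩⟩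
    · omega
    · omega
    · exact Or.inl ⟨rfl, c⟩
    · exact Or.inr ⟨rfl, c⟩
  unfold tf fc
  by_cases hn : n % 2 = 1
  · have a := card_le_card (t := {ext n h n, ext n h 0}) fun y hy => by
      have := H true y hy; simp only [mem_insert, mem_singleton]; tauto
    have b := card_le_card (t := ∅) fun y hy => by
      have := H false y hy; simp [hn] at this
    have := card_le_two (a := ext n h n) (b := ext n h 0)
    rw [card_empty] at b
    omega
  · have a := card_le_card (t := {ext n h 0}) fun y hy => by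
      have := H true y hy; simp only [mem_singleton]; tauto
    have b := card_le_card (t := {ext n h n}) fun y hy => by
      have := H false y hy; simp only [mem_singleton]; tauto
    rw [card_singleton] at a b
    omega

lemma mk_inj {h h' : Equiv.Perm (Fin (n + 1))} (e : mk n h = mk n h') (e0 : ext n h 0 = ext n h' 0) :
    h = h' := by
  have H : ∀ i, i ≤ n → ext n h i = ext n h' i := by
    intro i hi
    induction i with
    | zero => exact e0
    | succ i ih => rw [← mk_succ h hi, ← mk_succ h' hi, e, ih (by omega)]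
  ext i
  rw [← ext_val, ← ext_val, H _ (Nat.le_of_lt_succ i.isLt)]

end Pool.Agent.Lib.HWF
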