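import Pool.Agent.Lib.HWF.Merge

set_option autoImplicit false

namespace Pool.Agent.Lib.HWF

open Finset Pool.Agent.Lib.MP_8a1ce7_co.D

variable {X S : Finset ℕ} {M : Bool → ℕ → ℕ}

/-- delete neighbours outside `S` as long as possible -/
lemma reduce (S : Finset ℕ) : ∀ (n : ℕ) (X : Finset ℕ) (M : Bool → ℕ → ℕ), X.card = n → Sys X M →
    tf X M ≤ 2 → S ⊆ X → ∃ (X' : Finset ℕ) (M' : Bool → ℕ → ℕ), Sys X' M' ∧ tf X' M' ≤ 2 ∧ S ⊆ X' ∧
      X' ⊆ X ∧ (∀ b x, x ∈ S → M b x ∈ S → M' b x = M b x) ∧ ∀ p q, Nb X' p q → p ∈ S ∨ q ∈ S := by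
  intro n
  induction n using Nat.strong_induction_on with
  | _ n ih =>
    intro X M hc hs ht hS
    by_cases h : ∀ p q, Nb X p q → p ∈ S ∨ q ∈ S
    · exact ⟨X, M, hs, ht, hS, Subset.rfl, fun _ _ _ _ => rfl, h⟩
    push Not at h
    obtain ⟨p, q, ha, hp, hq⟩ := h
    have sub : (X.erase p).erase q ⊆ X := (erase_subset _ _).trans (erase_subset _ _)
    obtain ⟨X', M', a1, a2, a3, a4, a5, a6⟩ := ih ((X.erase p).erase q).card
      (by
        have := card_erase_lt_of_mem ha.1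
        have := card_le_card (erase_subset q (X.erase p))
        omega)
      _ (fun b => del (M b) p q) rfl (fun b => del_NI (hs b) ha)
      (by
        have := fc_del (hs true) ha
        have := fc_del (hs false) ha
        unfold tf at *
        dsimp only
        omega)
      (fun x hx => mem_erase.2 ⟨fun e => hq (e ▸ hx), mem_erase.2 ⟨fun e => hp (e ▸ hx), hS hx⟩⟩)
    refine ⟨X', M', a1, a2, a3, a4.trans sub, fun b x hx hb => ?_, a6⟩
    have e : del (M b) p q x = M b x := by unfold del; grind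
    rw [← e]
    exact a5 b x hx (e ▸ hb)

/-- the left ends of the runs of `S` -/
def starts (S : Finset ℕ) : Finset ℕ := S.filter fun g => 0 < g ∧ g - 1 ∉ S

lemma card_sdiff_le (h : ∀ p q, Nb X p q → p ∈ S ∨ q ∈ S) :
    (X \ S).card ≤ (starts S).card + 1 := by
  have H : ∀ x y, x ∈ X → y ∈ X → x < y → x ∉ S → y ∉ S → ∃ s ∈ S, x < s ∧ s < y := by
    intro x y hx hy hxy
    refine nb_ind (R := fun x y => x ∉ S → y ∉ S → ∃ s ∈ S, x < s ∧ s < y) (fun p q a b c => ?_)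
      (fun x y z _ _ _ h1 h2 r1 _ b c => ?_) _ x y rfl hx hy hxy
    · exact absurd (h p q a) (by tauto)
    · by_cases hy : y ∈ S
      · exact ⟨y, hy, h1, h2⟩
      · obtain ⟨s, a, b, c⟩ := r1 b hy
        exact ⟨s, a, b, by omega⟩
  rcases (X \ S).eq_empty_or_nonempty with h0 | h0
  · simp [h0]
  have hm := max'_mem _ h0
  have ex : ∀ t ∈ (X \ S).erase ((X \ S).max' h0), ∃ g, t < g ∧ g ∈ S := by
    intro t ht
    obtain ⟨t1, t2⟩ := mem_erase.1 ht
    obtain ⟨s, a, b, -⟩ := H t _ (mem_sdiff.1 t2).1 (mem_sdiff.1 hm).1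
      (lt_of_le_of_ne (le_max' _ _ t2) t1) (mem_sdiff.1 t2).2 (mem_sdiff.1 hm).2
    exact ⟨s, b, a⟩
  have sp : ∀ t ∈ (X \ S).erase ((X \ S).max' h0),
      (t < sInf {g | t < g ∧ g ∈ S} ∧ sInf {g | t < g ∧ g ∈ S} ∈ S) ∧
        ∀ g, t < g → g ∈ S → sInf {g | t < g ∧ g ∈ S} ≤ g := fun t ht =>
    ⟨Nat.sInf_mem (s := {g | t < g ∧ g ∈ S}) (ex t ht), fun g a b => Nat.sInf_le ⟨a, b⟩⟩
  have := card_erase_of_mem hm
  have := card_pos.2 h0
  have : ((X \ S).erase ((X \ S).max' h0)).card ≤ (starts S).card := by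
    refine card_le_card_of_injOn (fun t => sInf {g | t < g ∧ g ∈ S}) (fun t ht => ?_)
      fun t ht u hu e => ?_
    · obtain ⟨⟨a, b⟩, c⟩ := sp t ht
      have t2 := (mem_sdiff.1 (mem_erase.1 ht).2).2
      refine mem_filter.2 ⟨b, Nat.zero_lt_of_lt a, fun hh => ?_⟩
      dsimp only at hh
      by_cases e : sInf {g | t < g ∧ g ∈ S} - 1 = t
      · exact t2 (e ▸ hh)
      · have := c _ (by omega) hh
        omega
    · have t2 := mem_sdiff.1 (mem_erase.1 ht).2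
      have u2 := mem_sdiff.1 (mem_erase.1 hu).2
      obtain ⟨⟨a, -⟩, c⟩ := sp t ht
      obtain ⟨⟨a', -⟩, c'⟩ := sp u hu
      dsimp only at e
      rcases lt_trichotomy t u with h1 | h1 | h1
      · obtain ⟨s, s1, s2, s3⟩ := H t u t2.1 u2.1 h1 t2.2 u2.2
        have := c s s2 s1
        omega
      · exact h1
      · obtain ⟨s, s1, s2, s3⟩ := H u t u2.1 t2.1 h1 u2.2 t2.2
        have := c' s s2 s1
        omega
  omega

/-- the part of a folding on `S` is, up to few values, a smaller folding -/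
lemma piece {D : Finset ℕ} (hs : Sys X M) (hc : Conn X M) (ht : tf X M ≤ 2) (hS : S ⊆ X)
    (h1 : S.Nonempty) (h2 : (X \ S).Nonempty) (hD : ∀ b x, x ∈ S → M b x ∉ S → x ∈ D) :
    ∃ (X' : Finset ℕ) (M' : Bool → ℕ → ℕ) (E : Finset ℕ), Good X' M' ∧ S ⊆ X' ∧ X' ⊆ X ∧
      (X' \ S).card ≤ (starts S).card + 1 ∧ E.card ≤ 4 * ((starts S).card + 1 + D.card) + 2 ∧
      ∀ b x, x ∈ S → x ∉ D → x ∉ E → M' b x = M b x := by
  obtain ⟨X', M1, a1, a2, a3, a4, a5, a6⟩ := reduce S _ X M rfl hs ht hS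
  have c := card_sdiff_le a6
  obtain ⟨t, htt⟩ := h2
  obtain ⟨t1, t2⟩ := mem_sdiff.1 htt
  have hit : ∀ y, Rl M y t → y ∈ S → ∃ h ∈ (X' \ S) ∪ D, Rl M1 y h := by
    intro y hy
    induction hy using Relation.ReflTransGen.head_induction_on with
    | refl => exact fun h => absurd h t2
    | @head u v h _ ih =>
      obtain ⟨b, rfl⟩ := h
      intro hu
      by_cases hv : M b u ∈ S
      · obtain ⟨h, m, r⟩ := ih hv
        refine ⟨h, m, Rl.trans ?_ r⟩
        rw [← a5 b u hu hv]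
        exact Rl.step b u
      · exact ⟨u, mem_union_right _ (hD b u hu hv), Rl.rfl⟩
  obtain ⟨M', E, g, e1, e2⟩ := to_good (Hs := (X' \ S) ∪ D) (h1.mono a3) a1 a2 (by
    intro x hx
    by_cases h : x ∈ S
    · exact hit x (hc x (hS h) t t1) h
    · exact ⟨x, mem_union_left _ (mem_sdiff.2 ⟨hx, h⟩), Rl.rfl⟩)
  refine ⟨X', M', E, g, a3, a4, c, ?_, fun b x x1 x2 x3 => ?_⟩
  · have := card_union_le (X' \ S) D
    omega
  · rw [e2 b x x3]
    exact a5 b x x1 (by_contra fun h => x2 (hD b x x1 h))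

end Pool.Agent.Lib.HWF
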