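import Pool.Agent.Lib.HWF.Sep
import Pool.Agent.Lib.HWF.Path

set_option autoImplicit false

namespace Pool.Agent.Lib.HWF

open Finset Pool.Agent.Lib.MP_8a1ce7_co.D

/-- small subsets -/
def Sm {α : Type} (s : Finset α) (K : ℕ) : Finset (Finset α) := s.powerset.filter fun t => t.card ≤ K

lemma mem_Sm {α : Type} {s t : Finset α} {K : ℕ} : t ∈ Sm s K ↔ t ⊆ s ∧ t.card ≤ K := by simp [Sm]

lemma card_Sm {α : Type} [DecidableEq α] (s : Finset α) : ∀ K, (Sm s K).card ≤ (s.card + 1) ^ K := by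
  induction s using Finset.induction_on with
  | empty => intro K; exact (card_filter_le _ _).trans (by simp)
  | insert a s ha ih =>
    intro K
    cases K with
    | zero =>
      refine (card_le_card (t := {∅}) fun t ht => ?_).trans (by simp)
      have := (mem_Sm.1 ht).2
      simpa using this
    | succ K =>
      refine (card_le_card (t := Sm s (K + 1) ∪ (Sm s K).image (insert a)) fun t ht => ?_).trans ?_
      · obtain ⟨h1, h2⟩ := mem_Sm.1 ht
        by_cases h : a ∈ t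
        · refine mem_union_right _ (mem_image.2 ⟨t.erase a, mem_Sm.2 ⟨?_, ?_⟩, insert_erase h⟩)
          · exact subset_insert_iff.1 h1
          · rw [card_erase_of_mem h]; omega
        · exact mem_union_left _ (mem_Sm.2 ⟨(subset_insert_iff_of_notMem h).1 h1, h2⟩)
      · have h1 := card_union_le (Sm s (K + 1)) ((Sm s K).image (insert a))
        have h2 := card_image_le (s := Sm s K) (f := insert a)
        have h3 := ih (K + 1)
        have h4 := ih K
        have h5 : (s.card + 1) ^ K ≤ (s.card + 1 + 1) ^ K := Nat.pow_le_pow_left (by omega) K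
        rw [card_insert_of_notMem ha, pow_succ]
        rw [pow_succ] at h3
        nlinarith

/-- the places where membership in `S` changes -/
def Bd (N : ℕ) (S : Finset ℕ) : Finset ℕ :=
  (range N).filter fun g => ¬(g ∈ S ↔ 0 < g ∧ g - 1 ∈ S)

lemma Bd_inj {N : ℕ} {S T : Finset ℕ} (hS : S ⊆ range N) (hT : T ⊆ range N) (h : Bd N S = Bd N T) :
    S = T := by
  ext g
  induction g with
  | zero =>
    have := congrArg (0 ∈ ·) h
    have a := @hS 0
    have b := @hT 0
    simp only [Bd, mem_filter, lt_self_iff_false, false_and, iff_false, not_not, eq_iff_iff] at this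
    tauto
  | succ g ih =>
    have := congrArg (g + 1 ∈ ·) h
    have a := @hS (g + 1)
    have b := @hT (g + 1)
    simp only [Bd, mem_filter, Nat.zero_lt_succ, true_and, Nat.add_sub_cancel, eq_iff_iff] at this
    tauto

lemma split {N w : ℕ} {M : Bool → ℕ → ℕ} (hs : Sys (range N) M) (hc : Conn (range N) M)
    (ht : tf (range N) M ≤ 2) (hw : 0 < w) (hN : N ≤ w * w) (h2 : 2 ≤ N) :
    ∃ (S X1 X2 : Finset ℕ) (M1 M2 : Bool → ℕ → ℕ) (E : Finset ℕ),
      (S ⊆ range N ∧ N ≤ 4 * S.card ∧ 9 * S.card ≤ 8 * N ∧ (Bd N S).card ≤ 16 * w + 5) ∧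
      (S ⊆ X1 ∧ X1 ⊆ range N ∧ (X1 \ S).card ≤ 16 * w + 5 ∧ Good X1 M1) ∧
      (range N \ S ⊆ X2 ∧ X2 ⊆ range N ∧ (X2 \ (range N \ S)).card ≤ 16 * w + 5 ∧ Good X2 M2) ∧
      E.card ≤ 416 * w + 98 ∧ (∀ b x, x ∈ S → x ∉ E → M1 b x = M b x) ∧
      ∀ b x, x ∈ range N \ S → x ∉ E → M2 b x = M b x := by
  obtain ⟨S, s1, s2, s3, s4⟩ := sep hs hw hN h2
  generalize hC : ((EE N M).filter fun e => ¬(ex e ∈ S ↔ ey M e ∈ S)) = C at s4
  have mC : ∀ e, Val N M e → ¬(ex e ∈ S ↔ ey M e ∈ S) → e ∈ C := fun e a b =>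
    hC ▸ mem_filter.2 ⟨(mem_EE hs).2 a, b⟩
  have cB : (Bd N S).card ≤ 16 * w + 4 := by
    refine (card_le_card (t := insert 0 (C.image Prod.snd)) fun g hg => ?_).trans ?_
    · obtain ⟨g1, g2⟩ := mem_filter.1 hg
      rcases Nat.eq_zero_or_pos g with rfl | h
      · exact mem_insert_self _ _
      · refine mem_insert_of_mem (mem_image.2 ⟨(none, g), mC _ ⟨h, mem_range.1 g1⟩ ?_, rfl⟩)
        simp only [ex, ey]; tauto
    · have := card_insert_le 0 (C.image Prod.snd)
      have := card_image_le (s := C) (f := Prod.snd)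
      omega
  have cD : (C.image ex ∪ C.image (ey M)).card ≤ 32 * w + 6 := by
    have := card_union_le (C.image ex) (C.image (ey M))
    have := card_image_le (s := C) (f := ex)
    have := card_image_le (s := C) (f := ey M)
    omega
  have hD : ∀ b x, ¬(x ∈ S ↔ M b x ∈ S) → x ∈ C.image ex ∪ C.image (ey M) := by
    intro b x h
    rcases lt_trichotomy x (M b x) with l | l | l
    · exact mem_union_left _ (mem_image.2 ⟨(some b, x), mC _ l h, rfl⟩)
    · rw [← l] at h; tauto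
    · have i := (hs b).inv x
      refine mem_union_right _ (mem_image.2 ⟨(some b, M b x), mC _ ?_ ?_, i⟩)
      · simp only [Val, i]; exact l
      · simp only [ex, ey, i]; tauto
  generalize C.image ex ∪ C.image (ey M) = D at cD hD
  have cT : (range N \ S).card + S.card = N := by rw [card_sdiff_add_card_eq_card s1, card_range]
  have n1 : S.Nonempty := card_pos.1 (by omega)
  have n2 : (range N \ S).Nonempty := card_pos.1 (by omega)
  have t1 : (starts S).card ≤ (Bd N S).card := card_le_card fun g hg => by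
    obtain ⟨g1, g2⟩ := mem_filter.1 hg
    exact mem_filter.2 ⟨s1 g1, by tauto⟩
  have t2 : (starts (range N \ S)).card ≤ (Bd N S).card := card_le_card fun g hg => by
    obtain ⟨g1, g2, g3⟩ := mem_filter.1 hg
    obtain ⟨g4, g5⟩ := mem_sdiff.1 g1
    refine mem_filter.2 ⟨g4, fun h => g5 (h.2 ⟨g2, by_contra fun g6 => g3 (mem_sdiff.2 ⟨?_, g6⟩)⟩)⟩
    have := mem_range.1 g4
    exact mem_range.2 (by omega)
  obtain ⟨X1, M1, E1, a1, a2, a3, a4, a5, a6⟩ := piece (D := D) hs hc ht s1 n1 n2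
    fun b x h1 h2 => hD b x (by tauto)
  obtain ⟨X2, M2, E2, b1, b2, b3, b4, b5, b6⟩ := piece (D := D) (S := range N \ S) hs hc ht
    sdiff_subset n2 (by rwa [Finset.sdiff_sdiff_eq_self s1]) fun b x h1 h2 => hD b x (by
      have := (hs b).mem (mem_sdiff.1 h1).1
      simp only [mem_sdiff] at h1 h2
      tauto)
  refine ⟨S, X1, X2, M1, M2, D ∪ (E1 ∪ E2), ⟨s1, s2, s3, by omega⟩, ⟨a2, a3, by omega, a1⟩,
    ⟨b2, b3, by omega, b1⟩, ?_, fun b x h1 h2 => ?_, fun b x h1 h2 => ?_⟩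
  · have := card_union_le D (E1 ∪ E2)
    have := card_union_le E1 E2
    omega
  · simp only [mem_union, not_or] at h2
    exact a6 b x h1 h2.1 h2.2.1
  · simp only [mem_union, not_or] at h2
    exact b6 b x h1 h2.1 h2.2.2

/-- approximate submultiplicativity -/
theorem recur {n w Q : ℕ} (hw : 0 < w) (hN : n + 1 ≤ w * w) (h1 : 1 ≤ n)
    (hQ : ∀ a b, n + 1 ≤ 9 * (a + 1) → n + 1 ≤ 9 * (b + 1) → n + 1 ≤ a + 1 + (b + 1) →
      a + 1 + (b + 1) ≤ n + 1 + (32 * w + 10) → 9 * (a + 1) ≤ 8 * (n + 1) + 9 * (16 * w + 5) →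
      9 * (b + 1) ≤ 8 * (n + 1) + 9 * (16 * w + 5) → FF a * FF b ≤ Q) :
    FF n ≤ (n + 2) ^ (1610 * w) * Q := by
  classical
  have H := fun (h : Equiv.Perm (Fin (n + 1))) (hf : IsF n h) =>
    split (mk_sys hf) (mk_conn hf) (mk_tf h) hw hN (by omega)
  choose! S X1 X2 M1 M2 E H using H
  let R := range (n + 1)
  let P : Equiv.Perm (Fin (n + 1)) → Finset (ℕ × ℕ × ℕ) := fun h =>
    (R.filter (· ∈ E h)).image fun x => (x, mk n h true x, mk n h false x)
  let φ := fun h : Equiv.Perm (Fin (n + 1)) =>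
    ((Bd (n + 1) (S h), X1 h \ S h, X2 h \ (R \ S h)), P h, ext n h 0)
  let T := (Sm R (16 * w + 5) ×ˢ Sm R (16 * w + 5) ×ˢ Sm R (16 * w + 5)) ×ˢ
    Sm (R ×ˢ R ×ˢ R) (416 * w + 98) ×ˢ R
  have cT : T.card * 4 ≤ (n + 2) ^ (1610 * w) := by
    have a := card_Sm R (16 * w + 5)
    have b := card_Sm (R ×ˢ R ×ˢ R) (416 * w + 98)
    have cR : R.card = n + 1 := card_range _
    simp only [card_product, cR] at a b
    have b' : ((n + 1) * ((n + 1) * (n + 1)) + 1) ^ (416 * w + 98) ≤ ((n + 2) ^ 3) ^ (416 * w + 98) :=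
      Nat.pow_le_pow_left (by nlinarith [Nat.zero_le (n * n), Nat.zero_le (n * n * n)]) _
    have c : (n + 1) * 4 ≤ (n + 2) ^ 3 := by nlinarith [Nat.zero_le (n * n), Nat.zero_le (n * n * n)]
    calc T.card * 4 = (Sm R (16 * w + 5)).card * (Sm R (16 * w + 5)).card * (Sm R (16 * w + 5)).card *
          (Sm (R ×ˢ R ×ˢ R) (416 * w + 98)).card * ((n + 1) * 4) := by
          simp only [T, card_product, cR]; ring
      _ ≤ (n + 2) ^ (16 * w + 5) * (n + 2) ^ (16 * w + 5) * (n + 2) ^ (16 * w + 5) *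
          ((n + 2) ^ 3) ^ (416 * w + 98) * (n + 2) ^ 3 := by
          gcongr
          exact b.trans b'
      _ ≤ _ := by
          rw [← pow_mul, ← pow_add, ← pow_add, ← pow_add, ← pow_add]
          exact Nat.pow_le_pow_right (by omega) (by omega)
  rw [FF_eq]
  refine (card_le_mul_card_image_of_maps_to (f := φ) (t := T) (fun h hh => ?_) (4 * Q)
    fun t _ => ?_).trans (by nlinarith)
  · obtain ⟨⟨-, -, -, a⟩, ⟨-, b1, b2, -⟩, ⟨-, c1, c2, -⟩, d, -⟩ := H h (mem_filter.1 hh).2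
    have hs := mk_sys (mem_filter.1 hh).2
    simp only [φ, T, mem_product, mem_Sm]
    refine ⟨⟨⟨filter_subset _ _, a⟩, ⟨sdiff_subset.trans b1, b2⟩, sdiff_subset.trans c1, c2⟩,
      ⟨fun y hy => ?_, card_image_le.trans (le_trans (card_le_card fun x hx => (mem_filter.1 hx).2) d)⟩,
      mem_range.2 (Nat.lt_succ_of_le ((ext_inv h).hH 0 (Nat.zero_le n)).1)⟩
    obtain ⟨x, hx, rfl⟩ := mem_image.1 hy
    have hx := (mem_filter.1 hx).1
    simp only [mem_product]
    exact ⟨hx, (hs true).mem hx, (hs false).mem hx⟩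
  · rcases ((univ.filter (IsF n)).filter fun h => φ h = t).eq_empty_or_nonempty with e | ⟨h0, hh0⟩
    · simp [e]
    have same : ∀ h ∈ (univ.filter (IsF n)).filter fun h => φ h = t,
        IsF n h ∧ S h = S h0 ∧ X1 h = X1 h0 ∧ X2 h = X2 h0 ∧ P h = P h0 ∧ ext n h 0 = ext n h0 0 := by
      intro h hh
      have f := (mem_filter.1 (mem_filter.1 hh).1).2
      have f0 := (mem_filter.1 (mem_filter.1 hh0).1).2
      have e := (mem_filter.1 hh).2.trans (mem_filter.1 hh0).2.symm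
      simp only [φ, Prod.mk.injEq] at e
      obtain ⟨⟨e1, e2, e3⟩, e4, e5⟩ := e
      obtain ⟨⟨a, -⟩, ⟨b, -⟩, ⟨c, -⟩, -⟩ := H h f
      obtain ⟨⟨a0, -⟩, ⟨b0, -⟩, ⟨c0, -⟩, -⟩ := H h0 f0
      have eS := Bd_inj a a0 e1
      refine ⟨f, eS, ?_, ?_, e4, e5⟩
      · rw [← union_sdiff_of_subset b, ← union_sdiff_of_subset b0, e2, eS]
      · rw [← union_sdiff_of_subset c, ← union_sdiff_of_subset c0, e3, eS]
    obtain ⟨⟨a1, a2, a3, -⟩, ⟨b1, -, b3, -⟩, ⟨c1, -, c3, -⟩, -⟩ := H h0 (same h0 hh0).1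
    have k0 : (range (n + 1) \ S h0).card + (S h0).card = n + 1 := by
      rw [card_sdiff_add_card_eq_card a1, card_range]
    have k1 := card_sdiff_add_card_eq_card b1
    have k2 := card_sdiff_add_card_eq_card c1
    obtain ⟨m1, e1⟩ : ∃ m, (X1 h0).card = m + 1 := ⟨(X1 h0).card - 1, by omega⟩
    obtain ⟨m2, e2⟩ : ∃ m, (X2 h0).card = m + 1 := ⟨(X2 h0).card - 1, by omega⟩
    obtain ⟨A1, g1, g2⟩ := good_fin e1
    obtain ⟨A2, g3, g4⟩ := good_fin e2
    have q := hQ m1 m2 (by omega) (by omega) (by omega) (by omega) (by omega) (by omega)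
    refine (card_le_card_of_injOn (t := A1 ×ˢ A2) (fun h => (M1 h, M2 h)) (fun h hh => ?_)
      fun h hh h' hh' e => ?_).trans ?_
    · obtain ⟨f, -, e1, e2, -⟩ := same h hh
      obtain ⟨-, ⟨-, -, -, b⟩, ⟨-, -, -, c⟩, -⟩ := H h f
      exact mem_coe.2 (mem_product.2 ⟨g1 _ (e1 ▸ b), g3 _ (e2 ▸ c)⟩)
    · obtain ⟨f, s1, -, -, p1, z1⟩ := same h hh
      obtain ⟨f', s2, -, -, p2, z2⟩ := same h' hh'
      obtain ⟨-, -, -, -, u1, u2⟩ := H h f
      obtain ⟨-, -, -, -, v1, v2⟩ := H h' f'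
      simp only [Prod.mk.injEq] at e
      have pa : ∀ g g' : Equiv.Perm (Fin (n + 1)), P g = P g' → ∀ b x, x ∈ R → x ∈ E g →
          mk n g b x = mk n g' b x := by
        intro g g' e b x x1 x2
        have : (x, mk n g true x, mk n g false x) ∈ P g' :=
          e ▸ mem_image.2 ⟨x, mem_filter.2 ⟨x1, x2⟩, rfl⟩
        obtain ⟨y, -, hy⟩ := mem_image.1 this
        simp only [Prod.mk.injEq] at hy
        obtain ⟨rfl, y1, y2⟩ := hy
        cases b
        · exact y2.symm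
        · exact y1.symm
      refine mk_inj ?_ (z1.trans z2.symm)
      ext b x
      by_cases x0 : x ∈ R
      swap
      · rw [(mk_sys f b).out x x0, (mk_sys f' b).out x x0]
      by_cases x1 : x ∈ E h
      · exact pa h h' (p1.trans p2.symm) b x x0 x1
      by_cases x2 : x ∈ E h'
      · exact (pa h' h (p2.trans p1.symm) b x x0 x2).symm
      by_cases x3 : x ∈ S h0
      · rw [← u1 b x (s1 ▸ x3) x1, ← v1 b x (s2 ▸ x3) x2, e.1]
      · have x4 := mem_sdiff.2 ⟨x0, x3⟩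
        rw [← u2 b x (s1 ▸ x4) x1, ← v2 b x (s2 ▸ x4) x2, e.2]
    · rw [card_product]
      calc A1.card * A2.card ≤ 2 * FF m1 * (2 * FF m2) := Nat.mul_le_mul g2 g4
        _ = 4 * (FF m1 * FF m2) := by ring
        _ ≤ 4 * Q := by omega

end Pool.Agent.Lib.HWF
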