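import Pool.Agent.Lib.HWF.Face

set_option autoImplicit false

namespace Pool.Agent.Lib.HWF

open Finset Pool.Agent.Lib.MP_8a1ce7_co.D

variable {N : ℕ} {M : Bool → ℕ → ℕ}

open Classical in
/-- all edges -/
noncomputable def EE (N : ℕ) (M : Bool → ℕ → ℕ) : Finset Ed :=
  ((univ : Finset (Option Bool)) ×ˢ range N).filter (Val N M)

lemma mem_EE (hs : Sys (range N) M) {e : Ed} : e ∈ EE N M ↔ Val N M e := by
  classical
  simp only [EE, mem_filter, mem_product, mem_univ, true_and, mem_range]
  exact ⟨fun h => h.2, fun h => ⟨(val_lt hs h).2.2, h⟩⟩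

lemma card_EE : (EE N M).card ≤ 3 * N := by
  classical
  refine (card_filter_le _ _).trans ?_
  simp [card_product]

/-- weight of a colouring -/
def wt (W : Finset ℕ) (τ : ℕ → ZMod 2) : ℕ := (W.filter fun x => τ x = 1).card

lemma wt_add (W : Finset ℕ) (σ τ : ℕ → ZMod 2) : wt W (σ + τ) ≤ wt W σ + wt W τ := by
  refine le_trans (card_le_card fun x hx => ?_) (card_union_le _ _)
  have : ∀ a b : ZMod 2, a + b = 1 → a = 1 ∨ b = 1 := by decide
  simp only [mem_filter, mem_union, Pi.add_apply] at hx ⊢
  have := this _ _ hx.2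
  tauto

lemma wt_compl (W : Finset ℕ) (τ : ℕ → ZMod 2) : wt W τ + wt W (τ + 1) = W.card := by
  rw [← card_filter_add_card_filter_not (s := W) (fun x => τ x = 1), wt, wt]
  congr 2
  have : ∀ a : ZMod 2, a + 1 = 1 ↔ ¬a = 1 := by decide
  ext x
  simp only [mem_filter, Pi.add_apply, Pi.one_apply, this]

lemma wt_zero {W : Finset ℕ} {τ : ℕ → ZMod 2} (h : ∀ x ∈ W, τ x = 0) : wt W τ = 0 := by
  rw [wt, card_eq_zero, filter_eq_empty_iff]
  intro x hx
  rw [h x hx]; decide

/-- some fundamental cycle is balanced -/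
lemma bal (hs : Sys (range N) M) (χ : Fa → ℕ → ZMod 2) {W : Finset ℕ} (hW : W ⊆ range N)
    (h2 : 2 ≤ W.card) : ∃ e, Val N M e ∧ W.card ≤ 9 * wt W (χ (f1 M e) + χ (f2 M e) + rho e) ∧
      W.card ≤ 9 * wt W (χ (f1 M e) + χ (f2 M e) + rho e + 1) := by
  by_contra hc
  push Not at hc
  let G : (ℕ → ZMod 2) → Prop := fun τ => 9 * wt W τ < W.card ∨ 9 * wt W (τ + 1) < W.card
  let c : (ℕ → ZMod 2) → ZMod 2 := fun τ => ι (¬9 * wt W τ < W.card)
  have hG : ∀ e, Val N M e → G (χ (f1 M e) + χ (f2 M e) + rho e) := fun e he => by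
    by_cases h : W.card ≤ 9 * wt W (χ (f1 M e) + χ (f2 M e) + rho e)
    · exact Or.inr (hc e he h)
    · exact Or.inl (not_le.1 h)
  have sm : ∀ τ, G τ → 9 * wt W (τ + fun _ => c τ) < W.card := by
    intro τ h
    by_cases h1 : 9 * wt W τ < W.card
    · have e : c τ = 0 := ι_false (not_not.2 h1)
      have : (τ + fun _ => c τ) = τ := by ext x; simp [e]
      rwa [this]
    · have e : c τ = 1 := ι_t h1
      have : (τ + fun _ => c τ) = τ + 1 := by ext x; simp [e]
      rw [this]; exact h.resolve_left h1
  let R : ℕ → ℕ → ZMod 2 := fun g => χ (lab M true g) + χ (lab M false g) + rho (none, g)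
  let A : Bool → ℕ → ℕ → ZMod 2 := fun b v => χ (lab M b v) + χ (lab M b (v + 1))
  have R0 : wt W (R 0 + 1) = 0 := wt_zero fun x _ => by
    simp only [R, lab_zero, Pi.add_apply, rho, two, ι_t (Nat.zero_le x), Pi.one_apply, zero_add]
  have RN : wt W (R N) = 0 := wt_zero fun x hx => by
    simp only [R, lab_N hs, Pi.add_apply, rho, two, zero_add]
    exact ι_false (not_le.2 (mem_range.1 (hW hx)))
  have GR : ∀ g, g ≤ N → G (R g) := by
    intro g hg
    by_cases h : 0 < g ∧ g < N
    · exact hG (none, g) h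
    · rcases (by omega : g = 0 ∨ g = N) with rfl | rfl
      · right; omega
      · left; omega
  have A0 : ∀ b v, M b v = v → wt W (A b v) = 0 := fun b v h => wt_zero fun x _ => by
    simp only [A, lab_fix hs h, Pi.add_apply, two]
  have As : ∀ b v, A b (M b v) = A b v := by
    have : ∀ b v, v < M b v → A b (M b v) = A b v := fun b v h => by
      simp only [A, lab_in hs h, lab_out hs h, add_comm]
    intro b v
    rcases lt_trichotomy v (M b v) with h | h | h
    · exact this b v h
    · rw [← h]
    · have := this b (M b v) (by rw [(hs b).inv]; exact h)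
      rw [(hs b).inv] at this
      exact this.symm
  have GA : ∀ b v, G (A b v) := by
    have : ∀ b v, v < M b v → G (A b v) := fun b v h => by
      have := hG (some b, v) h
      have e : rho (some b, v) = 0 := rfl
      rwa [e, add_zero] at this
    intro b v
    rcases lt_trichotomy v (M b v) with h | h | h
    · exact this b v h
    · left; rw [A0 b v h.symm]; omega
    · rw [← As]; exact this b _ (by rw [(hs b).inv]; exact h)
  have loc : ∀ v, v < N → c (R v) + c (R (v + 1)) + (c (A true v) + c (A false v)) = 0 := by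
    intro v hv
    by_contra hne
    have h1 : c (R v) + c (R (v + 1)) + (c (A true v) + c (A false v)) = 1 := by
      revert hne; generalize c (R v) + c (R (v + 1)) + (c (A true v) + c (A false v)) = a
      revert a; decide
    have s1 := sm _ (GR v hv.le)
    have s2 := sm _ (GR (v + 1) hv)
    have s3 := sm _ (GA true v)
    have s4 := sm _ (GA false v)
    have t1 := wt_add W (R v + fun _ => c (R v)) (R (v + 1) + fun _ => c (R (v + 1)))
    have t2 := wt_add W (A true v + fun _ => c (A true v)) (A false v + fun _ => c (A false v))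
    have t3 := wt_add W ((R v + fun _ => c (R v)) + (R (v + 1) + fun _ => c (R (v + 1))))
      ((A true v + fun _ => c (A true v)) + (A false v + fun _ => c (A false v)))
    have t4 : (W.erase v).card ≤ wt W (((R v + fun _ => c (R v)) + (R (v + 1) + fun _ => c (R (v + 1)))) +
      ((A true v + fun _ => c (A true v)) + (A false v + fun _ => c (A false v)))) := by
      refine card_le_card fun x hx => mem_filter.2 ⟨mem_of_mem_erase hx, ?_⟩
      have e : ι (v ≤ x) + ι (v + 1 ≤ x) = 0 := by
        have : x ≠ v := (mem_erase.1 hx).1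
        rw [← ι_false (P := False) not_false, ι3, not_false_eq_true, iff_true]; omega
      simp only [Pi.add_apply]
      simp only [R, A, Pi.add_apply, rho] at h1 ⊢
      linear_combination h1 + e + two (χ (lab M true v) x) + two (χ (lab M false v) x) +
        two (χ (lab M true (v + 1)) x) + two (χ (lab M false (v + 1)) x)
    have := pred_card_le_card_erase (s := W) (a := v)
    omega
  have sA : ∀ b, ∑ v ∈ range N, c (A b v) = 0 := fun b =>
    sum_involution (fun v _ => M b v) (fun v _ => by rw [As]; exact two _)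
      (fun v _ h e => h (ι_false (by rw [A0 b v e]; omega))) (fun v hv => (hs b).mem hv)
      fun v _ => (hs b).inv v
  have tot := sum_eq_zero fun v (hv : v ∈ range N) => loc v (mem_range.1 hv)
  rw [sum_add_distrib, sum_add_distrib (f := fun v => c (A true v)), sA, sA, range_eq_Ico,
    tele (fun v => c (R v)) (Nat.zero_le N)] at tot
  have c0 : c (R 0) = 1 := ι_t (by have := wt_compl W (R 0); omega)
  have cN : c (R N) = 0 := ι_false (by omega)
  rw [c0, cN] at tot
  revert tot; decide

/-- edges that cross the level `a` -/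
noncomputable def cutAt (N : ℕ) (M : Bool → ℕ → ℕ) (a : ℕ) : Finset Ed :=
  (EE N M).filter fun e => ¬(lv N M (ex e) < a ↔ lv N M (ey M e) < a)

lemma window (hs : Sys (range N) M) {w : ℕ} (hw : 0 < w) (hN : N ≤ w * w) (s : ℕ) :
    ∃ a, s ≤ a ∧ a < s + w ∧ (cutAt N M a).card ≤ 6 * w := by
  have h1 : ∑ a ∈ Ico s (s + w), (cutAt N M a).card ≤ 6 * N := by
    simp only [cutAt, card_filter]
    rw [sum_comm]
    refine (sum_le_card_nsmul _ _ 2 fun e he => ?_).trans ?_
    · rw [← card_filter]
      refine le_trans (card_le_card fun a ha => ?_) (card_le_two (a := lev N M e - 1) (b := lev N M e))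
      have := lev_lv hs ((mem_EE hs).1 he)
      have := (mem_filter.1 ha).2
      simp only [mem_insert, mem_singleton]
      omega
    · have := card_EE (N := N) (M := M)
      rw [smul_eq_mul]; omega
  obtain ⟨a, ha, h⟩ := exists_le_of_sum_le (s := Ico s (s + w)) (f := fun a => (cutAt N M a).card)
    (g := fun _ => 6 * w) ⟨s, by simp [hw]⟩ (by
      rw [sum_const, Nat.card_Ico, smul_eq_mul, Nat.add_sub_cancel_left]
      nlinarith)
  exact ⟨a, (mem_Ico.1 ha).1, (mem_Ico.1 ha).2, h⟩

lemma median (ℓ : ℕ → ℕ) (N : ℕ) : ∃ μ, 2 * ((range N).filter fun v => ℓ v < μ).card ≤ N ∧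
    2 * ((range N).filter fun v => μ < ℓ v).card ≤ N := by
  have ex : ∃ t, N ≤ 2 * ((range N).filter fun v => ℓ v ≤ t).card := by
    refine ⟨(range N).sup ℓ, ?_⟩
    rw [filter_true_of_mem fun v hv => le_sup hv, card_range]; omega
  refine ⟨Nat.find ex, ?_, ?_⟩
  · rcases Nat.eq_zero_or_pos (Nat.find ex) with h | h
    · simp [h]
    · have := Nat.find_min ex (m := Nat.find ex - 1) (by omega)
      have e : ((range N).filter fun v => ℓ v < Nat.find ex) =
          (range N).filter fun v => ℓ v ≤ Nat.find ex - 1 := filter_congr fun v _ => by omega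
      rw [e]; omega
  · have := Nat.find_spec ex
    have h := card_filter_add_card_filter_not (s := range N) (fun v => ℓ v ≤ Nat.find ex)
    simp only [not_le, card_range] at h
    omega

/-- the separator theorem for a line with two non crossing matchings -/
theorem sep (hs : Sys (range N) M) {w : ℕ} (hw : 0 < w) (hN : N ≤ w * w) (h2 : 2 ≤ N) :
    ∃ S, S ⊆ range N ∧ N ≤ 4 * S.card ∧ 9 * S.card ≤ 8 * N ∧
      ((EE N M).filter fun e => ¬(ex e ∈ S ↔ ey M e ∈ S)).card ≤ 16 * w + 3 := by
  obtain ⟨μ, m1, m2⟩ := median (lv N M) N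
  obtain ⟨a, a1, a2, a3⟩ : ∃ a, a ≤ μ ∧ μ < a + w ∧ (cutAt N M a).card ≤ 6 * w := by
    by_cases h : w ≤ μ + 1
    · obtain ⟨a, a1, a2, a3⟩ := window hs hw hN (μ + 1 - w)
      exact ⟨a, by omega, by omega, a3⟩
    · exact ⟨0, by omega, by omega, by simp [cutAt]⟩
  obtain ⟨b, b1, b2, b3⟩ := window hs hw hN (μ + 1)
  let W := (range N).filter fun v => a ≤ lv N M v ∧ lv N M v < b
  have hW : W ⊆ range N := filter_subset _ _
  have cW : W.card ≤ N := by simpa using card_le_card hW
  obtain ⟨τ, t1, t2, t3⟩ : ∃ τ : ℕ → ZMod 2, 9 * wt W τ ≤ 8 * N ∧ 9 * wt W (τ + 1) ≤ 8 * N ∧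
      ((EE N M).filter fun e => ex e ∈ W ∧ τ (ex e) ≠ τ (ey M e)).card ≤ 4 * w + 3 := by
    by_cases h : 2 ≤ W.card
    swap
    · have := wt_compl W 0
      exact ⟨0, by omega, by omega, by simp⟩
    have H : ∀ f, ∃ (χ : ℕ → ZMod 2) (z : ℕ → Ed), (∃ k, Rch N M k f) → ∀ e, Val N M e →
        χ (ex e) + χ (ey M e) + io e f ≠ 0 → e = z (lev N M e) := by
      intro f
      by_cases hf : ∃ k, Rch N M k f
      · obtain ⟨χ, z, H⟩ := chi hs _ f (dd_spec hf) rfl
        exact ⟨χ, z, fun _ e v h => (H e v h).2⟩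
      · exact ⟨0, fun _ => (none, 0), fun h => absurd h hf⟩
    choose χ z H using H
    obtain ⟨e0, v0, c1, c2⟩ := bal hs χ hW h
    have c3 := wt_compl W (χ (f1 M e0) + χ (f2 M e0) + rho e0)
    refine ⟨χ (f1 M e0) + χ (f2 M e0) + rho e0, by omega, by omega, ?_⟩
    have r1 : ∃ k, Rch N M k (f1 M e0) := by obtain ⟨_ | b, p⟩ := e0 <;> exact reach hs _ _
    have r2 : ∃ k, Rch N M k (f2 M e0) := by obtain ⟨_ | b, p⟩ := e0 <;> exact reach hs _ _
    refine (card_le_card (t := insert e0 ((Icc a (b + 1)).image (z (f1 M e0)) ∪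
      (Icc a (b + 1)).image (z (f2 M e0)))) fun e he => ?_).trans ?_
    · obtain ⟨e1, e2, e3⟩ := mem_filter.1 he
      have v := (mem_EE hs).1 e1
      have l := lev_lv hs v
      have e4 := (mem_filter.1 e2).2
      have hl : lev N M e ∈ Icc a (b + 1) := mem_Icc.2 (by omega)
      by_contra hn
      simp only [mem_insert, mem_union, mem_image, not_or, not_exists, not_and] at hn
      have K := keyK hs v v0
      rw [ι_false hn.1] at K
      have k1 := not_not.1 fun h => hn.2.1 _ hl (H _ r1 e v h).symm
      have k2 := not_not.1 fun h => hn.2.2 _ hl (H _ r2 e v h).symm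
      apply e3
      simp only [Pi.add_apply]
      linear_combination k1 + k2 + K - two (io e (f1 M e0)) - two (io e (f2 M e0)) -
        two (χ (f1 M e0) (ey M e)) - two (χ (f2 M e0) (ey M e)) - two (rho e0 (ey M e))
    · refine (card_insert_le _ _).trans ?_
      have := card_union_le ((Icc a (b + 1)).image (z (f1 M e0))) ((Icc a (b + 1)).image (z (f2 M e0)))
      have := card_image_le (s := Icc a (b + 1)) (f := z (f1 M e0))
      have := card_image_le (s := Icc a (b + 1)) (f := z (f2 M e0))
      rw [Nat.card_Icc] at *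
      omega
  let κ : ℕ → ℕ := fun v =>
    if lv N M v < a then 0 else if b ≤ lv N M v then 1 else if τ v = 1 then 2 else 3
  have hκ : ∀ v ∈ range N, κ v ∈ range 4 := fun v _ => by
    simp only [κ, mem_range]; split_ifs <;> omega
  have tot := card_eq_sum_card_fiberwise (f := κ) (s := range N) (t := range 4) hκ
  obtain ⟨i, hi, h⟩ := exists_le_of_sum_le (s := range 4) (f := fun _ => N)
    (g := fun i => 4 * ((range N).filter fun v => κ v = i).card) ⟨0, by simp⟩ (by
      rw [← mul_sum, ← tot]; simp)
  refine ⟨_, filter_subset _ _, h, ?_, ?_⟩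
  · have s : ∀ T : Finset ℕ, (∀ v, v ∈ range N → κ v = i → v ∈ T) →
        ((range N).filter fun v => κ v = i).card ≤ T.card := fun T hT =>
      card_le_card fun v hv => hT v (mem_filter.1 hv).1 (mem_filter.1 hv).2
    have z2 : ∀ x : ZMod 2, ¬x = 1 → x + 1 = 1 := by decide
    rcases (by have := mem_range.1 hi; omega : i = 0 ∨ i = 1 ∨ i = 2 ∨ i = 3) with rfl | rfl | rfl | rfl
    · have := s ((range N).filter fun v => lv N M v < μ) fun v hv e => mem_filter.2 ⟨hv, by
        simp only [κ] at e; split_ifs at e <;> omega⟩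
      omega
    · have := s ((range N).filter fun v => μ < lv N M v) fun v hv e => mem_filter.2 ⟨hv, by
        simp only [κ] at e; split_ifs at e <;> omega⟩
      omega
    · have := s (W.filter fun v => τ v = 1) fun v hv e => by
        simp only [κ] at e
        split_ifs at e with p q r <;> try omega
        exact mem_filter.2 ⟨mem_filter.2 ⟨hv, by omega⟩, r⟩
      unfold wt at t1; omega
    · have := s (W.filter fun v => (τ + 1) v = 1) fun v hv e => by
        simp only [κ] at e
        split_ifs at e with p q r <;> try omega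
        exact mem_filter.2 ⟨mem_filter.2 ⟨hv, by omega⟩, z2 _ r⟩
      unfold wt at t2; omega
  · refine (card_le_card (t := (cutAt N M a ∪ cutAt N M b) ∪
      (EE N M).filter fun e => ex e ∈ W ∧ τ (ex e) ≠ τ (ey M e)) fun e he => ?_).trans ?_
    · obtain ⟨e1, e2⟩ := mem_filter.1 he
      obtain ⟨x1, x2, -⟩ := val_lt hs ((mem_EE hs).1 e1)
      by_contra hn
      simp only [mem_union, cutAt, mem_filter, e1, true_and, not_or, not_not, not_and, W, mem_range,
        x1] at hn
      apply e2
      simp only [mem_filter, mem_range, x1, x2, true_and]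
      have : κ (ex e) = κ (ey M e) := by
        simp only [κ]
        by_cases p : lv N M (ex e) < a
        · rw [if_pos p, if_pos (hn.1.1.1 p)]
        · rw [if_neg p, if_neg (fun h => p (hn.1.1.2 h))]
          by_cases q : lv N M (ex e) < b
          · rw [if_neg (not_le.2 q), if_neg (not_le.2 (hn.1.2.1 q)), hn.2 ⟨not_lt.1 p, q⟩]
          · rw [if_pos (not_lt.1 q), if_pos (not_lt.1 fun h => q (hn.1.2.2 h))]
      rw [this]
    · have := card_union_le (cutAt N M a) (cutAt N M b)
      have := card_union_le (cutAt N M a ∪ cutAt N M b)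
        ((EE N M).filter fun e => ex e ∈ W ∧ τ (ex e) ≠ τ (ey M e))
      omega

end Pool.Agent.Lib.HWF
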