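import Pool.Agent.Lib.MP_8a1ce7_co.Count

set_option autoImplicit false

namespace Pool.Agent.Lib.HWF

open Finset Pool.Agent.Lib.MP_8a1ce7_co.D

/-- a non crossing involution supported on `X` -/
structure NI (X : Finset ℕ) (U : ℕ → ℕ) : Prop where
  inv : ∀ x, U (U x) = x
  out : ∀ x, x ∉ X → U x = x
  nc : ∀ x y, y ≠ x → y ≠ U x → NC x (U x) y (U y)

variable {X : Finset ℕ} {U : ℕ → ℕ} {p q : ℕ}

lemma NI.mem (h : NI X U) {x : ℕ} (hx : x ∈ X) : U x ∈ X := by
  by_contra hn
  have := h.out _ hn
  rw [h.inv] at this
  rw [← this] at hn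
  exact hn hx

lemma NI.inj (h : NI X U) {x y : ℕ} (e : U x = U y) : x = y := by
  rw [← h.inv x, e, h.inv]

/-- number of points of `X` without an arc -/
def fc (X : Finset ℕ) (U : ℕ → ℕ) : ℕ := (X.filter fun x => U x = x).card

/-- `p < q` are neighbours in `X` -/
def Nb (X : Finset ℕ) (p q : ℕ) : Prop := p ∈ X ∧ q ∈ X ∧ p < q ∧ ∀ z ∈ X, z ≤ p ∨ q ≤ z

/-- remove the arcs at `p` and `q` and join their other ends -/
def del (U : ℕ → ℕ) (p q x : ℕ) : ℕ :=
  if x = p ∨ x = q then x else
  if U x = p then (if U q = q then x else U q) else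
  if U x = q then (if U p = p then x else U p) else U x

/-- the same, with a new arc from `p` to `q` -/
def sw (U : ℕ → ℕ) (p q x : ℕ) : ℕ := if x = p then q else if x = q then p else del U p q x

lemma del_NI (h : NI X U) (ha : Nb X p q) : NI ((X.erase p).erase q) (del U p q) := by
  obtain ⟨hp, hq, hpq, hz⟩ := ha
  have ip := h.inv p
  have iq := h.inv q
  refine ⟨fun x => ?_, fun x hx => ?_, fun x y h1 h2 => ?_⟩
  · have ix := h.inv x
    unfold del
    grind
  · have ix := h.inv x
    have o := h.out x
    simp only [mem_erase] at hx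
    unfold del
    grind
  · have ix := h.inv x
    have iy := h.inv y
    by_cases hx : x ∈ X
    swap
    · have o := h.out x hx
      have e : del U p q x = x := by unfold del; grind
      rw [e]; unfold NC; tauto
    by_cases hy : y ∈ X
    swap
    · have o := h.out y hy
      have e : del U p q y = y := by unfold del; grind
      rw [e]; unfold NC; tauto
    have z1 := hz x hx
    have z2 := hz y hy
    have z3 := hz _ (h.mem hx)
    have z4 := hz _ (h.mem hy)
    have z5 := hz _ (h.mem hp)
    have z6 := hz _ (h.mem hq)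
    have n1 := h.nc x y
    have n2 := h.nc x p
    have n3 := h.nc x q
    have n4 := h.nc p y
    have n5 := h.nc q y
    clear hz h hp hq hx hy
    unfold NC at *
    unfold del at *
    grind (splits := 60)

lemma sw_NI (h : NI X U) (ha : Nb X p q) : NI X (sw U p q) := by
  have d := del_NI h ha
  obtain ⟨hp, hq, hpq, hz⟩ := ha
  have dp : del U p q p = p := by simp [del]
  have dq : del U p q q = q := by simp [del]
  refine ⟨fun x => ?_, fun x hx => ?_, fun x y h1 h2 => ?_⟩
  · have ix := d.inv x
    unfold sw
    grind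
  · have o := d.out x (by simp [hx])
    unfold sw
    grind
  · have ix := d.inv x
    have iy := d.inv y
    have n := d.nc x y
    have mx : x ∈ X ∧ del U p q x ∈ X ∨ del U p q x = x := by
      by_cases hx : x ∈ (X.erase p).erase q
      · exact Or.inl ⟨mem_of_mem_erase (mem_of_mem_erase hx),
          mem_of_mem_erase (mem_of_mem_erase (d.mem hx))⟩
      · exact Or.inr (d.out x hx)
    have my : y ∈ X ∧ del U p q y ∈ X ∨ del U p q y = y := by
      by_cases hy : y ∈ (X.erase p).erase q
      · exact Or.inl ⟨mem_of_mem_erase (mem_of_mem_erase hy),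
          mem_of_mem_erase (mem_of_mem_erase (d.mem hy))⟩
      · exact Or.inr (d.out y hy)
    have z1 := hz x
    have z2 := hz y
    have z3 := hz (del U p q x)
    have z4 := hz (del U p q y)
    clear hz h d
    unfold NC at *
    unfold sw at *
    grind (splits := 60)

lemma fc_del (h : NI X U) (ha : Nb X p q) : fc ((X.erase p).erase q) (del U p q) ≤ fc X U := by
  obtain ⟨hp, hq, hpq, hz⟩ := ha
  have ip := h.inv p
  have iq := h.inv q
  refine card_le_card_of_injOn (fun x => if U x = x then x else if U x = p then q else p)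
    (fun x hx => ?_) fun x hx y hy e => ?_
  · have ix := h.inv x
    simp only [coe_filter, mem_erase, Set.mem_ofPred_eq, del] at hx ⊢
    grind
  · have ix := h.inv x
    have iy := h.inv y
    simp only [coe_filter, mem_erase, Set.mem_ofPred_eq, del] at hx hy e
    grind

lemma fc_sw (h : NI X U) (ha : Nb X p q) : fc X (sw U p q) ≤ fc X U := by
  refine le_trans (card_le_card fun x hx => ?_) (fc_del h ha)
  have := ha.2.2.1
  simp only [mem_filter, mem_erase, sw] at hx ⊢
  grind

/-- parity of a set that is stable under an involution -/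
lemma par {C : Finset ℕ} (hm : ∀ x ∈ C, U x ∈ C) (hi : ∀ x, U (U x) = x) :
    C.card % 2 = fc C U % 2 := by
  have h1 := card_filter_add_card_filter_not (s := C) (fun x => U x = x)
  have h2 : ∑ _x ∈ C.filter (fun x => ¬ U x = x), (1 : ZMod 2) = 0 := by
    refine sum_involution (fun x _ => U x) (fun _ _ => two 1) (fun x hx _ => (mem_filter.1 hx).2)
      (fun x hx => ?_) fun x _ => hi x
    rw [mem_filter] at hx ⊢
    refine ⟨hm x hx.1, fun e => hx.2 ?_⟩
    rw [hi] at e; exact e.symm
  rw [sum_const, nsmul_eq_mul, mul_one, ZMod.natCast_eq_zero_iff] at h2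
  unfold fc
  omega

end Pool.Agent.Lib.HWF
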